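import Pool.Agent.H471.CR.Fac4
import Pool.Agent.H471.QP.Box

set_option autoImplicit false

/-!
The block bound for the products.
-/

namespace Pool.Agent.H471.CR

open Complex MeasureTheory Set
open Pool.Agent.H471.QP
open Pool.Agent.H383 Pool.Agent.H383.Gauss Pool.Agent.H383.Circ Pool.Agent.H383.Gen

lemma blk3 {k : ℕ} {α β γ : ℝ} (g : ℕ → Fin k → ℝ × ℝ → ℂ) (w : ℕ → ℂ) (hw : ∀ n, ‖w n‖ ≤ 1) (n0 : ℕ)
    (hc : ∀ n, n0 ≤ n → ∀ j, BM α β γ (g n j)) (i : Fin k) (M H : ℕ) (Z : ℝ) (hZ : 0 ≤ Z)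
    (h1 : ∀ n m : ℕ, n0 ≤ n → n < M + H → n0 ≤ m → m < M + H → ∀ j, j ≠ i →
      ‖∫ θ in bx α β γ, g n j θ * (starRingEnd ℂ) (g m j θ)‖ ≤ Z)
    (h2 : ∀ n m : ℕ, n0 ≤ n → n < M + H → n0 ≤ m → m < M + H →
      ‖∫ θ in bx α β γ, g n i θ * (starRingEnd ℂ) (g m i θ)‖ ≤ Z * kap n m) :
    Integrable (fun θ : Fin k → ℝ × ℝ => ‖∑ n ∈ (Finset.Ico M (M + H)).filter (fun n => n0 ≤ n),
      w n * ∏ j, g n j (θ j)‖ ^ 2) (Measure.pi fun _ => volume.restrict (bx α β γ)) ∧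
    ∫ θ : Fin k → ℝ × ℝ, ‖∑ n ∈ (Finset.Ico M (M + H)).filter (fun n => n0 ≤ n),
      w n * ∏ j, g n j (θ j)‖ ^ 2 ∂(Measure.pi fun _ => volume.restrict (bx α β γ)) ≤
      Z ^ k * (25 * (H * (1 + Real.log (H + 1)))) := by
  have hk : k ≠ 0 := by
    rintro rfl
    exact i.elim0
  have hI : ∀ n ∈ (Finset.Ico M (M + H)).filter (fun n => n0 ≤ n), n0 ≤ n ∧ n < M + H := by
    intro n hn
    rw [Finset.mem_filter, Finset.mem_Ico] at hn
    exact ⟨hn.2, hn.1.2⟩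
  obtain ⟨s1, s2⟩ := sm (volume.restrict (bx α β γ)) ((Finset.Ico M (M + H)).filter (fun n => n0 ≤ n)) w hw g (by
    intro n hn m hm j
    exact (hc n (hI n hn).1 j).int_mul (hc m (hI m hm).1 j))
  refine ⟨s1, s2.trans ?_⟩
  have h3 : ∀ n ∈ (Finset.Ico M (M + H)).filter (fun n => n0 ≤ n), ∀ m ∈ (Finset.Ico M (M + H)).filter (fun n => n0 ≤ n),
      ∏ j, ‖∫ θ in bx α β γ, g n j θ * (starRingEnd ℂ) (g m j θ)‖ ≤ Z ^ k * kap n m := by
    intro n hn m hm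
    obtain ⟨a1, a2⟩ := hI n hn
    obtain ⟨b1, b2⟩ := hI m hm
    rw [← Finset.mul_prod_erase _ _ (Finset.mem_univ i)]
    have h4 : ∏ j ∈ Finset.univ.erase i, ‖∫ θ in bx α β γ, g n j θ * (starRingEnd ℂ) (g m j θ)‖ ≤ Z ^ (k - 1) := by
      calc _ ≤ ∏ j ∈ Finset.univ.erase i, Z := Finset.prod_le_prod (fun _ _ => norm_nonneg _) (by
            intro j hj
            exact h1 n m a1 a2 b1 b2 j (Finset.ne_of_mem_erase hj))
        _ = Z ^ (k - 1) := by rw [Finset.prod_const, Finset.card_erase_of_mem (Finset.mem_univ i), Finset.card_fin]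
    calc _ ≤ (Z * kap n m) * Z ^ (k - 1) := mul_le_mul (h2 n m a1 a2 b1 b2) h4
          (Finset.prod_nonneg fun _ _ => norm_nonneg _) (mul_nonneg hZ (kap_nn n m))
      _ = (Z * Z ^ (k - 1)) * kap n m := by ring
      _ = _ := by rw [mul_pow_sub_one hk]
  have h5 : ∑ n ∈ (Finset.Ico M (M + H)).filter (fun n => n0 ≤ n), ∑ m ∈ (Finset.Ico M (M + H)).filter (fun n => n0 ≤ n),
      Z ^ k * kap n m ≤ ∑ n ∈ Finset.Ico M (M + H), ∑ m ∈ Finset.Ico M (M + H), Z ^ k * kap n m := by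
    have hn : ∀ n m, 0 ≤ Z ^ k * kap n m := fun n m => mul_nonneg (by positivity) (kap_nn n m)
    calc _ ≤ ∑ n ∈ (Finset.Ico M (M + H)).filter (fun n => n0 ≤ n), ∑ m ∈ Finset.Ico M (M + H), Z ^ k * kap n m :=
          Finset.sum_le_sum fun n _ => Finset.sum_le_sum_of_subset_of_nonneg (Finset.filter_subset _ _)
            (fun m _ _ => hn n m)
      _ ≤ _ := Finset.sum_le_sum_of_subset_of_nonneg (Finset.filter_subset _ _)
            (fun n _ _ => Finset.sum_nonneg fun m _ => hn n m)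
  calc _ ≤ ∑ n ∈ (Finset.Ico M (M + H)).filter (fun n => n0 ≤ n),
        ∑ m ∈ (Finset.Ico M (M + H)).filter (fun n => n0 ≤ n), Z ^ k * kap n m :=
        Finset.sum_le_sum fun n hn => Finset.sum_le_sum fun m hm => h3 n hn m hm
    _ ≤ ∑ n ∈ Finset.Ico M (M + H), ∑ m ∈ Finset.Ico M (M + H), Z ^ k * kap n m := h5
    _ = Z ^ k * ∑ n ∈ Finset.Ico M (M + H), ∑ m ∈ Finset.Ico M (M + H), kap n m := by
        simp_rw [Finset.mul_sum]
    _ ≤ _ := by
        have := kap_sum M H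
        gcongr

/-- the summand -/
noncomputable def fnC {k : ℕ} (α β : ℝ) (d e : Fin k → ℕ) (x y : ℕ → Fin k → ℝ) (w : ℕ → ℂ) (n0 n : ℕ)
    (θ : Fin k → ℝ × ℝ) : ℂ :=
  if n0 ≤ n then w n * ∏ j, gC α β (d j) (e j) (x n j) (y n j) (θ j) else 0

/-- one factor replaced -/
noncomputable def gr {k : ℕ} (F : ℕ → Fin k → ℝ × ℝ → ℂ) (D : ℕ → ℝ × ℝ → ℂ) (i : Fin k) (n : ℕ) (j : Fin k) :
    ℝ × ℝ → ℂ :=
  if j = i then D n else F n j

lemma split1 {k : ℕ} (C : Fin k → ℂ) (i : Fin k) (v : ℂ) :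
    ∏ j, C j = ∏ j, (if j = i then v else C j) + ∏ j, (if j = i then C i - v else C j) := by
  rw [← Finset.mul_prod_erase _ C (Finset.mem_univ i),
    ← Finset.mul_prod_erase _ (fun j => if j = i then v else C j) (Finset.mem_univ i),
    ← Finset.mul_prod_erase _ (fun j => if j = i then C i - v else C j) (Finset.mem_univ i)]
  have e1 : ∏ j ∈ Finset.univ.erase i, (if j = i then v else C j) = ∏ j ∈ Finset.univ.erase i, C j :=
    Finset.prod_congr rfl fun j hj => if_neg (Finset.ne_of_mem_erase hj)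
  have e2 : ∏ j ∈ Finset.univ.erase i, (if j = i then C i - v else C j) = ∏ j ∈ Finset.univ.erase i, C j :=
    Finset.prod_congr rfl fun j hj => if_neg (Finset.ne_of_mem_erase hj)
  rw [e1, e2, if_pos rfl, if_pos rfl]
  ring

lemma gC_meas {α β x y : ℝ} {d e : ℕ} : Measurable (gC α β d e x y) := by
  unfold gC
  exact (Complex.continuous_ofReal.comp (rt_cont α β)).measurable.mul
    (Complex.measurable_ofReal.comp (En_meas.comp (uu_cont d e x y).measurable))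

lemma fnC_meas {k : ℕ} (α β : ℝ) (d e : Fin k → ℕ) (x y : ℕ → Fin k → ℝ) (w : ℕ → ℂ) (n0 n : ℕ) :
    Measurable (fnC α β d e x y w n0 n) := by
  unfold fnC
  split_ifs
  · apply Measurable.const_mul
    exact Finset.measurable_fun_prod _ fun j _ => gC_meas.comp (measurable_pi_apply j)
  · exact measurable_const

lemma inv_kap {n m : ℕ} (hnm : n < m) : ((m : ℝ) - n)⁻¹ ≤ kap n m := by
  have hmn : (0 : ℝ) < (m : ℝ) - n := by
    have h2 : (n : ℝ) < m := by exact_mod_cast hnm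
    linarith
  unfold kap
  rw [if_neg hnm.ne, abs_sub_comm, abs_of_pos hmn]
  have p1 : ((m : ℝ) - n)⁻¹ ≤ 2 / ((m : ℝ) - n) := by
    rw [← one_div]
    gcongr
    norm_num
  have p2 : 0 ≤ 4 / √(((n : ℝ) + 1) * (m + 1)) := by positivity
  linarith

theorem blockC {k : ℕ} (i : Fin k) (α β γ : ℝ) (hα : 0 < α) (hαβ : α ≤ β) (hγ : 0 ≤ γ) (d e : Fin k → ℕ)
    (he : ∀ j, 1 ≤ e j)
    (hed : ∀ j, e j < d j) (x : ℕ → Fin k → ℝ) (hx0 : ∀ j, 1 ≤ x 0 j) (hx : ∀ n j, x n j + 1 ≤ x (n + 1) j)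
    (B : ℝ) (hB : ∀ (n : ℕ) (j : Fin k), x n j ≤ ((n : ℝ) + 2) ^ B) (y : ℕ → Fin k → ℝ) (Y0 : ℝ) (hY0 : 0 ≤ Y0)
    (hy : ∀ n j, 0 ≤ y n j ∧ y n j ≤ Y0 * x n j ^ d j) (w : ℕ → ℂ) (hw : ∀ n, ‖w n‖ ≤ 1) (ε : ℝ) (hε : 0 < ε)
    (hε1 : ε ≤ 1) :
    ∃ (C : ℝ) (n0 : ℕ), 0 ≤ C ∧ ∀ M H : ℕ,
      Integrable (fun θ : Fin k → ℝ × ℝ => ‖∑ n ∈ Finset.Ico M (M + H), fnC α β d e x y w n0 n θ‖ ^ 2)
        (Measure.pi fun _ => volume.restrict (bx α β γ)) ∧
      ∫ θ : Fin k → ℝ × ℝ, ‖∑ n ∈ Finset.Ico M (M + H), fnC α β d e x y w n0 n θ‖ ^ 2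
        ∂(Measure.pi fun _ => volume.restrict (bx α β γ)) ≤ C * H * ((M + H : ℕ) : ℝ) ^ ε := by
  have hk0 : (0 : ℝ) ≤ k := Nat.cast_nonneg k
  have hBa : 0 ≤ |B| := abs_nonneg B
  obtain ⟨δ, hδ⟩ : ∃ δ : ℝ, δ = ε / (4 * (|B| + 1) * (k + 1)) := ⟨_, rfl⟩
  have hδ0 : 0 < δ := by rw [hδ]; positivity
  have hδ1 : δ ≤ 1 / 2 := by
    rw [hδ, div_le_iff₀ (by positivity)]
    have : 1 ≤ (|B| + 1) * (k + 1) := one_le_mul_of_one_le_of_one_le (by linarith) (by linarith)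
    nlinarith
  have hδ2 : |B| * δ * (2 * k) ≤ ε / 2 := by
    have e1 : ε / 2 = (|B| + 1) * δ * (2 * (k + 1)) := by rw [hδ]; field_simp; ring
    rw [e1]
    gcongr <;> linarith
  choose C x0 hC hx0' hA hK using fun j => facC α β γ Y0 hα hαβ hγ hY0 δ hδ0 hδ1 (d j) (e j) (he j) (hed j)
  obtain ⟨A, hAdef⟩ : ∃ A : ℝ, A = 1 + ∑ j, C j := ⟨_, rfl⟩
  have hAC : ∀ j, C j ≤ A := by
    intro j
    have := Finset.single_le_sum (f := C) (fun j _ => (hC j).le) (Finset.mem_univ j)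
    rw [hAdef]
    linarith
  have hA1 : 1 ≤ A := by
    have : 0 ≤ ∑ j, C j := Finset.sum_nonneg fun j _ => (hC j).le
    rw [hAdef]
    linarith
  have hA0 : 0 < A := by linarith
  obtain ⟨n0, hn0⟩ : ∃ n0 : ℕ, n0 = ⌈∑ j, x0 j⌉₊ := ⟨_, rfl⟩
  have hxn0 : ∀ n, n0 ≤ n → ∀ j, x0 j ≤ x n j := by
    intro n hn j
    have h1 := Finset.single_le_sum (f := x0) (fun j _ => by linarith [hx0' j]) (Finset.mem_univ j)
    have h2 : ∑ j, x0 j ≤ n0 := by rw [hn0]; exact Nat.le_ceil _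
    have h3 : (n0 : ℝ) ≤ n := by exact_mod_cast hn
    have h4 := x_ge hx0 hx n j
    linarith
  refine ⟨4 * (A ^ k * 25 * (1 + 1 / (ε / 2)) * 2 ^ ε), n0, by positivity, fun M H => ?_⟩
  rcases Nat.eq_zero_or_pos H with hH0 | hH0
  · subst hH0
    simp
  -- notation
  obtain ⟨F, hF⟩ : ∃ F : ℕ → Fin k → ℝ × ℝ → ℂ, F = fun n j => gC α β (d j) (e j) (x n j) (y n j) := ⟨_, rfl⟩
  obtain ⟨P, hP⟩ : ∃ P : ℕ → ℝ × ℝ → ℂ, P = fun n => gV α β (YY (d i) (x n i)) (dl (d i) (x n i)) (d i) (e i)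
    (x n i) (y n i) := ⟨_, rfl⟩
  obtain ⟨E, hE⟩ : ∃ E : ℕ → ℝ × ℝ → ℂ, E = fun n θ => F n i θ - P n θ := ⟨_, rfl⟩
  have hx1 : ∀ n j, 1 ≤ x n j := fun n j => by
    have := x_ge hx0 hx n j
    have h0 : (0 : ℝ) ≤ n := Nat.cast_nonneg n
    linarith
  have cF : ∀ n j, BM α β γ (F n j) := fun n j => by
    rw [hF]; exact gC_bm hα hαβ hγ (hed j) (hx1 n j) (hy n j).1 (hy n j).2
  have cP : ∀ n, BM α β γ (P n) := fun n => by
    rw [hP]; exact gV_bm _ _ _ _ _ _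
  have cE : ∀ n, BM α β γ (E n) := fun n => by
    rw [hE]; exact (cF n i).sub (cP n)
  -- the size
  obtain ⟨T, hT⟩ : ∃ T : ℝ, T = 2 * ((M + H : ℕ) : ℝ) := ⟨_, rfl⟩
  have hMH : (1 : ℝ) ≤ ((M + H : ℕ) : ℝ) := by
    have : 1 ≤ M + H := by omega
    exact_mod_cast this
  have hT2 : 2 ≤ T := by rw [hT]; linarith
  have hT0 : 0 < T := by linarith
  obtain ⟨W, hW⟩ : ∃ W : ℝ, W = (T ^ |B|) ^ δ := ⟨_, rfl⟩
  have hTB : 1 ≤ T ^ |B| := Real.one_le_rpow (by linarith) hBa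
  have hW1 : 1 ≤ W := by rw [hW]; exact Real.one_le_rpow hTB hδ0.le
  have hW0 : 0 < W := by linarith
  have hxT : ∀ n j, n < M + H → x n j ≤ T ^ |B| := by
    intro n j hn
    have h1 : (n : ℝ) + 2 ≤ T := by
      have : n + 1 ≤ M + H := hn
      have h2 : ((n + 1 : ℕ) : ℝ) ≤ ((M + H : ℕ) : ℝ) := by exact_mod_cast this
      push_cast at h2
      rw [hT]
      push_cast
      push_cast at hMH
      linarith
    have h0 : (0 : ℝ) ≤ n := Nat.cast_nonneg n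
    calc x n j ≤ ((n : ℝ) + 2) ^ B := hB n j
      _ ≤ ((n : ℝ) + 2) ^ |B| := Real.rpow_le_rpow_of_exponent_le (by linarith) (le_abs_self B)
      _ ≤ T ^ |B| := Real.rpow_le_rpow (by linarith) h1 hBa
  have hxW : ∀ n j, n < M + H → x n j ^ δ ≤ W := by
    intro n j hn
    rw [hW]
    exact Real.rpow_le_rpow (by linarith [hx1 n j]) (hxT n j hn) hδ0.le
  obtain ⟨Z, hZ⟩ : ∃ Z : ℝ, Z = A * W ^ 2 := ⟨_, rfl⟩
  have hAWZ : A * W ≤ Z := by
    rw [hZ]
    have : W ≤ W ^ 2 := by nlinarith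
    gcongr
  have hZ0 : 0 ≤ Z := by rw [hZ]; positivity
  have hAZ : A ≤ Z := by
    have : A * 1 ≤ A * W := by gcongr
    linarith
  -- second moments
  have mF : ∀ n j, n0 ≤ n → n < M + H → ∫ θ in bx α β γ, ‖F n j θ‖ ^ 2 ≤ A * W := by
    intro n j h1 h2
    rw [hF]
    refine (hA j (x n j) (y n j) (hxn0 n h1 j) (hy n j).1 (hy n j).2).1.trans ?_
    exact mul_le_mul (hAC j) (hxW n j h2) (Real.rpow_nonneg (by linarith [hx1 n j]) _) hA0.le
  have mP : ∀ n, n0 ≤ n → n < M + H → ∫ θ in bx α β γ, ‖P n θ‖ ^ 2 ≤ A * W := by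
    intro n h1 h2
    rw [hP]
    refine (hA i (x n i) (y n i) (hxn0 n h1 i) (hy n i).1 (hy n i).2).2.1.trans ?_
    exact mul_le_mul (hAC i) (hxW n i h2) (Real.rpow_nonneg (by linarith [hx1 n i]) _) hA0.le
  have mE : ∀ n, n0 ≤ n → ∫ θ in bx α β γ, ‖E n θ‖ ^ 2 ≤ A * (x n i)⁻¹ := by
    intro n h1
    rw [hE, hF, hP]
    refine (hA i (x n i) (y n i) (hxn0 n h1 i) (hy n i).1 (hy n i).2).2.2.trans ?_
    have : 0 ≤ (x n i)⁻¹ := inv_nonneg.2 (by linarith [hx1 n i])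
    exact mul_le_mul_of_nonneg_right (hAC i) this
  have hsq : √(A * W * (A * W)) ≤ Z := by rw [Real.sqrt_mul_self (by positivity)]; exact hAWZ
  -- off position
  have off : ∀ (D : ℕ → ℝ × ℝ → ℂ), ∀ n m : ℕ, n0 ≤ n → n < M + H → n0 ≤ m → m < M + H →
      ∀ j, j ≠ i → ‖∫ θ in bx α β γ, gr F D i n j θ * (starRingEnd ℂ) (gr F D i m j θ)‖ ≤ Z := by
    intro D n m a1 a2 b1 b2 j hj
    have hAW : 0 < A * W := by positivity
    unfold gr
    simp only [if_neg hj]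
    exact (cs_bm (cF n j) (cF m j) hAW hAW (mF n j a1 a2) (mF m j b1 b2)).trans hsq
  -- the polynomial
  have onPlt : ∀ n m : ℕ, n0 ≤ n → n < M + H → n0 ≤ m → m < M + H → n < m →
      ‖∫ θ in bx α β γ, P n θ * (starRingEnd ℂ) (P m θ)‖ ≤ Z * kap n m := by
    intro n m a1 a2 b1 b2 hnm
    have g1 := x_gap hx i hnm.le
    have hmn : (1 : ℝ) ≤ (m : ℝ) - n := by
      have : n + 1 ≤ m := hnm
      have h2 : ((n + 1 : ℕ) : ℝ) ≤ m := by exact_mod_cast this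
      push_cast at h2
      linarith
    have hlt : x n i < x m i := by linarith
    have g2 := hK i (x n i) (x m i) (y n i) (y m i) (hxn0 n a1 i) hlt
    have g3 : (x m i - x n i)⁻¹ ≤ kap n m :=
      (inv_anti₀ (by linarith) (by linarith)).trans (inv_kap hnm)
    rw [hP]
    refine g2.trans ?_
    have p1 : 0 ≤ x n i ^ δ := Real.rpow_nonneg (by linarith [hx1 n i]) _
    have p2 : 0 ≤ x m i ^ δ := Real.rpow_nonneg (by linarith [hx1 m i]) _
    have q1 := hxW n i a2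
    have q2 := hxW m i b2
    rw [Real.mul_rpow (by linarith [hx1 n i]) (by linarith [hx1 m i])]
    have g4 : C i * (x n i ^ δ * x m i ^ δ) ≤ Z := by
      rw [hZ]
      calc C i * (x n i ^ δ * x m i ^ δ) ≤ A * (W * W) := by
            apply mul_le_mul (hAC i) (mul_le_mul q1 q2 p2 hW0.le) (by positivity) hA0.le
        _ = _ := by ring
    have g5 : 0 ≤ (x m i - x n i)⁻¹ := inv_nonneg.2 (by linarith)
    exact mul_le_mul g4 g3 g5 hZ0
  have onP : ∀ n m : ℕ, n0 ≤ n → n < M + H → n0 ≤ m → m < M + H →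
      ‖∫ θ in bx α β γ, P n θ * (starRingEnd ℂ) (P m θ)‖ ≤ Z * kap n m := by
    intro n m a1 a2 b1 b2
    rcases lt_trichotomy n m with h | h | h
    · exact onPlt n m a1 a2 b1 b2 h
    · subst h
      have hAW : 0 < A * W := by positivity
      have h1 := (cs_bm (cP n) (cP n) hAW hAW (mP n a1 a2) (mP n a1 a2)).trans hsq
      have h2 : 1 ≤ kap n n := by
        unfold kap
        rw [if_pos rfl]
        have : 0 ≤ 4 / √(((n : ℝ) + 1) * (n + 1)) := by positivity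
        linarith
      calc _ ≤ Z := h1
        _ = Z * 1 := by ring
        _ ≤ _ := by gcongr
    · have h1 := onPlt m n b1 b2 a1 a2 h
      have h2 : ∫ θ in bx α β γ, P n θ * (starRingEnd ℂ) (P m θ) =
          (starRingEnd ℂ) (∫ θ in bx α β γ, P m θ * (starRingEnd ℂ) (P n θ)) := by
        rw [← integral_conj]
        congr 1
        funext θ
        rw [map_mul, Complex.conj_conj]
        ring
      rw [h2, RCLike.norm_conj, kap_comm]
      exact h1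
  have onE : ∀ n m : ℕ, n0 ≤ n → n0 ≤ m →
      ‖∫ θ in bx α β γ, E n θ * (starRingEnd ℂ) (E m θ)‖ ≤ Z * kap n m := by
    intro n m a1 b1
    have u1 := x_ge hx0 hx n i
    have u2 := x_ge hx0 hx m i
    have v1 : (0 : ℝ) ≤ n := Nat.cast_nonneg n
    have v2 : (0 : ℝ) ≤ m := Nat.cast_nonneg m
    have w1 : 0 < x n i := by linarith
    have w2 : 0 < x m i := by linarith
    have h1 := cs_bm (cE n) (cE m) (by positivity) (by positivity) (mE n a1) (mE m b1)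
    refine h1.trans ?_
    have h2 : √(A * (x n i)⁻¹ * (A * (x m i)⁻¹)) ≤ A * (1 / √(((n : ℝ) + 1) * (m + 1))) := by
      apply Real.sqrt_le_iff.2
      refine ⟨by positivity, ?_⟩
      rw [mul_pow, div_pow, Real.sq_sqrt (by positivity)]
      have h3 : (x n i)⁻¹ * (x m i)⁻¹ ≤ 1 / (((n : ℝ) + 1) * (m + 1)) := by
        rw [← mul_inv, one_div]
        apply inv_anti₀ (by positivity)
        gcongr
      calc A * (x n i)⁻¹ * (A * (x m i)⁻¹) = A ^ 2 * ((x n i)⁻¹ * (x m i)⁻¹) := by ring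
        _ ≤ A ^ 2 * (1 / (((n : ℝ) + 1) * (m + 1))) := by gcongr
        _ = _ := by ring
    have h4 : 1 / √(((n : ℝ) + 1) * (m + 1)) ≤ kap n m := by
      unfold kap
      have h5 : 1 / √(((n : ℝ) + 1) * (m + 1)) ≤ 4 / √(((n : ℝ) + 1) * (m + 1)) := by
        gcongr
        norm_num
      have h6 : (0 : ℝ) ≤ (if n = m then 1 else 2 / |(n : ℝ) - m|) := by split_ifs <;> positivity
      linarith
    calc _ ≤ A * (1 / √(((n : ℝ) + 1) * (m + 1))) := h2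
      _ ≤ Z * kap n m := mul_le_mul hAZ h4 (by positivity) hZ0
  -- the blocks
  have kP := blk3 (α := α) (β := β) (γ := γ) (gr F P i) w hw n0 (by
    intro n _ j
    unfold gr
    split_ifs
    · exact cP n
    · exact cF n j) i M H Z hZ0 (off P) (by
    intro n m a1 a2 b1 b2
    have := onP n m a1 a2 b1 b2
    unfold gr
    simpa only [if_true] using this)
  have kE := blk3 (α := α) (β := β) (γ := γ) (gr F E i) w hw n0 (by
    intro n _ j
    unfold gr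
    split_ifs
    · exact cE n
    · exact cF n j) i M H Z hZ0 (off E) (by
    intro n m a1 a2 b1 b2
    have := onE n m a1 b1
    unfold gr
    simpa only [if_true] using this)
  -- the pointwise bound
  have pt : ∀ θ : Fin k → ℝ × ℝ, ‖∑ n ∈ Finset.Ico M (M + H), fnC α β d e x y w n0 n θ‖ ^ 2 ≤
      2 * (‖∑ n ∈ (Finset.Ico M (M + H)).filter (fun n => n0 ≤ n), w n * ∏ j, gr F P i n j (θ j)‖ ^ 2 +
        ‖∑ n ∈ (Finset.Ico M (M + H)).filter (fun n => n0 ≤ n), w n * ∏ j, gr F E i n j (θ j)‖ ^ 2) := by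
    intro θ
    have e1 : ∑ n ∈ Finset.Ico M (M + H), fnC α β d e x y w n0 n θ =
        (∑ n ∈ (Finset.Ico M (M + H)).filter (fun n => n0 ≤ n), w n * ∏ j, gr F P i n j (θ j)) +
          (∑ n ∈ (Finset.Ico M (M + H)).filter (fun n => n0 ≤ n), w n * ∏ j, gr F E i n j (θ j)) := by
      unfold fnC
      rw [← Finset.sum_filter, ← Finset.sum_add_distrib]
      refine Finset.sum_congr rfl fun n _ => ?_
      have := split1 (fun j => F n j (θ j)) i (P n (θ i))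
      have e2 : ∏ j, gC α β (d j) (e j) (x n j) (y n j) (θ j) = ∏ j, F n j (θ j) := by rw [hF]
      rw [e2, this, mul_add]
      congr 2
      · refine Finset.prod_congr rfl fun j _ => ?_
        unfold gr
        by_cases h : j = i
        · rw [if_pos h, if_pos h, h]
        · rw [if_neg h, if_neg h]
      · refine Finset.prod_congr rfl fun j _ => ?_
        unfold gr
        by_cases h : j = i
        · rw [if_pos h, if_pos h, h, hE]
        · rw [if_neg h, if_neg h]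
    rw [e1]
    obtain ⟨a, ha⟩ : ∃ a : ℂ, a = ∑ n ∈ (Finset.Ico M (M + H)).filter (fun n => n0 ≤ n), w n * ∏ j, gr F P i n j (θ j) :=
      ⟨_, rfl⟩
    obtain ⟨b, hb⟩ : ∃ b : ℂ, b = ∑ n ∈ (Finset.Ico M (M + H)).filter (fun n => n0 ≤ n), w n * ∏ j, gr F E i n j (θ j) :=
      ⟨_, rfl⟩
    rw [← ha, ← hb]
    have h1 := norm_add_le a b
    have h2 := norm_nonneg (a + b)
    calc ‖a + b‖ ^ 2 ≤ (‖a‖ + ‖b‖) ^ 2 := by gcongr
      _ ≤ _ := by nlinarith [sq_nonneg (‖a‖ - ‖b‖)]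
  have iPE : Integrable (fun θ : Fin k → ℝ × ℝ =>
      ‖∑ n ∈ (Finset.Ico M (M + H)).filter (fun n => n0 ≤ n), w n * ∏ j, gr F P i n j (θ j)‖ ^ 2 +
        ‖∑ n ∈ (Finset.Ico M (M + H)).filter (fun n => n0 ≤ n), w n * ∏ j, gr F E i n j (θ j)‖ ^ 2)
      (Measure.pi fun _ => volume.restrict (bx α β γ)) := kP.1.add kE.1
  have iR : Integrable (fun θ : Fin k → ℝ × ℝ => 2 *
      (‖∑ n ∈ (Finset.Ico M (M + H)).filter (fun n => n0 ≤ n), w n * ∏ j, gr F P i n j (θ j)‖ ^ 2 +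
        ‖∑ n ∈ (Finset.Ico M (M + H)).filter (fun n => n0 ≤ n), w n * ∏ j, gr F E i n j (θ j)‖ ^ 2))
      (Measure.pi fun _ => volume.restrict (bx α β γ)) := iPE.const_mul 2
  have iL : Integrable (fun θ : Fin k → ℝ × ℝ => ‖∑ n ∈ Finset.Ico M (M + H), fnC α β d e x y w n0 n θ‖ ^ 2)
      (Measure.pi fun _ => volume.restrict (bx α β γ)) := by
    refine iR.mono' ?_ (Filter.Eventually.of_forall fun θ => ?_)
    · exact ((Finset.measurable_fun_sum _ fun n _ => fnC_meas α β d e x y w n0 n).norm.pow_const 2).aestronglyMeasurable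
    · rw [Real.norm_of_nonneg (by positivity)]
      exact pt θ
  refine ⟨iL, ?_⟩
  have h1 := integral_mono iL iR pt
  rw [integral_const_mul, integral_add kP.1 kE.1] at h1
  have hlog : 0 ≤ Real.log ((H : ℝ) + 1) := Real.log_nonneg (by linarith [(Nat.cast_nonneg H : (0:ℝ) ≤ H)])
  have hTk : (W ^ 2) ^ k * (1 + Real.log (H + 1)) ≤ (1 + 1 / (ε / 2)) * (2 ^ ε * ((M + H : ℕ) : ℝ) ^ ε) := by
    have b1 : (W ^ 2) ^ k ≤ T ^ (ε / 2) := by
      rw [hW, ← pow_mul, ← Real.rpow_natCast, ← Real.rpow_mul (by positivity), ← Real.rpow_mul (by positivity)]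
      apply Real.rpow_le_rpow_of_exponent_le (by linarith)
      push_cast
      linarith
    have b2 : 1 + Real.log (H + 1) ≤ (1 + 1 / (ε / 2)) * T ^ (ε / 2) := by
      refine (one_log (by positivity : 0 < ε / 2) (by linarith [(Nat.cast_nonneg H : (0:ℝ) ≤ H)])).trans ?_
      have b3 : (H : ℝ) + 1 ≤ T := by
        rw [hT]
        push_cast
        have : (1:ℝ) ≤ H := by exact_mod_cast hH0
        have : (0:ℝ) ≤ M := Nat.cast_nonneg M
        linarith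
      gcongr
    calc (W ^ 2) ^ k * (1 + Real.log (H + 1)) ≤ T ^ (ε / 2) * ((1 + 1 / (ε / 2)) * T ^ (ε / 2)) := by gcongr
      _ = (1 + 1 / (ε / 2)) * (T ^ (ε / 2) * T ^ (ε / 2)) := by ring
      _ = (1 + 1 / (ε / 2)) * T ^ ε := by
        rw [← Real.rpow_add hT0]
        congr 2
        ring
      _ = _ := by rw [hT, Real.mul_rpow (by norm_num) (by linarith)]
  calc _ ≤ 2 * ((∫ θ : Fin k → ℝ × ℝ, ‖∑ n ∈ (Finset.Ico M (M + H)).filter (fun n => n0 ≤ n),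
          w n * ∏ j, gr F P i n j (θ j)‖ ^ 2 ∂(Measure.pi fun _ => volume.restrict (bx α β γ))) +
        ∫ θ : Fin k → ℝ × ℝ, ‖∑ n ∈ (Finset.Ico M (M + H)).filter (fun n => n0 ≤ n),
          w n * ∏ j, gr F E i n j (θ j)‖ ^ 2 ∂(Measure.pi fun _ => volume.restrict (bx α β γ))) := h1
    _ ≤ 2 * (Z ^ k * (25 * (H * (1 + Real.log (H + 1)))) + Z ^ k * (25 * (H * (1 + Real.log (H + 1))))) := by
        have := kP.2
        have := kE.2
        gcongr
    _ = 4 * (A ^ k * 25 * ((W ^ 2) ^ k * (1 + Real.log (H + 1)))) * H := by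
        rw [hZ, mul_pow]
        ring
    _ ≤ 4 * (A ^ k * 25 * ((1 + 1 / (ε / 2)) * (2 ^ ε * ((M + H : ℕ) : ℝ) ^ ε))) * H := by
        gcongr
    _ = _ := by ring

end Pool.Agent.H471.CR
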