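import Pool.Agent.H471.QP.Fac2

set_option autoImplicit false

/-!
Correlations of trigonometric polynomials with the frequencies `2π√m` along two polynomial radii.
-/

namespace Pool.Agent.H471.CR

open Complex MeasureTheory Set
open Pool.Agent.H471.QP

/-- the frequencies -/
noncomputable def lm (m : ℕ) : ℝ := 2 * Real.pi * √(m : ℝ)

lemma lm_ge {m : ℕ} (hm : 1 ≤ m) : 1 ≤ lm m := by
  unfold lm
  have h1 : (1:ℝ) ≤ √(m:ℝ) := Real.one_le_sqrt.2 (by exact_mod_cast hm)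
  have h2 := Real.pi_gt_three
  nlinarith

/-- the trigonometric polynomial -/
noncomputable def ZZ (S : Finset ℕ) (c : ℕ → ℂ) (u : ℝ) : ℂ := ∑ m ∈ S, c m * ex (u * lm m)

lemma ZZ_cont (S : Finset ℕ) (c : ℕ → ℂ) : Continuous (ZZ S c) := by
  unfold ZZ
  apply continuous_finsetSum
  intro m _
  exact continuous_const.mul (ex_cont.comp (by fun_prop))

/-- the integral in `b` -/
lemma int_b {γ : ℝ} (hγ : 0 ≤ γ) (Y : ℝ) : ‖∫ b in (0:ℝ)..γ, ex (b * Y)‖ ≤ γ ∧
    (Y ≠ 0 → ‖∫ b in (0:ℝ)..γ, ex (b * Y)‖ ≤ 2 / |Y|) := by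
  constructor
  · have := intervalIntegral.norm_integral_le_of_norm_le_const (a := 0) (b := γ) (C := 1)
      (f := fun b : ℝ => ex (b * Y)) (fun b _ => (norm_ex _).le)
    rwa [one_mul, sub_zero, abs_of_nonneg hγ] at this
  · intro hY
    have h1 := intervalIntegral.integral_eq_sub_of_hasDerivAt (a := 0) (b := γ)
      (f := fun a : ℝ => (I * (Y : ℂ))⁻¹ * ex (a * Y)) (f' := fun a => ex (a * Y)) (fun a _ => ex_anti hY a)
      (Continuous.intervalIntegrable (ex_cont.comp (by fun_prop)) _ _)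
    rw [h1, ← mul_sub, norm_mul, nrm_inv]
    have h2 : ‖ex (γ * Y) - ex (0 * Y)‖ ≤ 2 := by
      refine (norm_sub_le _ _).trans ?_
      rw [norm_ex, norm_ex]
      norm_num
    calc |Y|⁻¹ * ‖ex (γ * Y) - ex (0 * Y)‖ ≤ |Y|⁻¹ * 2 := by gcongr
      _ = _ := by rw [div_eq_mul_inv]; ring

/-- the integral over the box -/
lemma int_bx (α β γ : ℝ) (hαβ : α ≤ β) (hγ : 0 ≤ γ) : ∃ C : ℝ, 0 < C ∧ ∀ X Y : ℝ,
    ‖∫ θ in bx α β γ, (eta α β θ.1 : ℂ) * (ex (θ.1 * X) * ex (θ.2 * Y))‖ ≤ C * d2 X * γ ∧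
    (Y ≠ 0 → ‖∫ θ in bx α β γ, (eta α β θ.1 : ℂ) * (ex (θ.1 * X) * ex (θ.2 * Y))‖ ≤ C * d2 X * (2 / |Y|)) := by
  have hba : 0 ≤ β - α := by linarith
  refine ⟨2 * ((β - α) * ((β - α) * (β - α) + 2) + 2 * (β - α)) + 1, by positivity, fun X Y => ?_⟩
  have hc : ContinuousOn (fun θ : ℝ × ℝ => (eta α β θ.1 : ℂ) * (ex (θ.1 * X) * ex (θ.2 * Y))) (bx α β γ) := by
    apply Continuous.continuousOn
    apply Continuous.mul
    · unfold QP.eta
      fun_prop
    · exact (ex_cont.comp (by fun_prop)).mul (ex_cont.comp (by fun_prop))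
  have e1 : ∫ θ in bx α β γ, (eta α β θ.1 : ℂ) * (ex (θ.1 * X) * ex (θ.2 * Y)) =
      (∫ a in α..β, (eta α β a : ℂ) * ex (a * X)) * ∫ b in (0:ℝ)..γ, ex (b * Y) := by
    rw [fubC hαβ hγ hc, ← intervalIntegral.integral_mul_const]
    congr 1
    funext a
    rw [← intervalIntegral.integral_const_mul]
    congr 1
    funext b
    ring
  have h1 := osc2 hαβ (eta_c2 α β) (by unfold QP.eta; ring) (by unfold QP.eta; ring) X
  have hd := (d2_pos X).le
  have h2 : ‖∫ a in α..β, (eta α β a : ℂ) * ex (a * X)‖ ≤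
      (2 * ((β - α) * ((β - α) * (β - α) + 2) + 2 * (β - α)) + 1) * d2 X := by
    refine h1.trans ?_
    gcongr
    linarith
  obtain ⟨h3, h4⟩ := int_b hγ Y
  rw [e1, norm_mul]
  constructor
  · exact mul_le_mul h2 h3 (norm_nonneg _) (by positivity)
  · intro hY
    exact mul_le_mul h2 (h4 hY) (norm_nonneg _) (by positivity)

lemma d2_d1 (X : ℝ) : d2 X ≤ 2 * d1 X ∧ d2 X ≤ 2 * (d1 X * d1 X) := by
  unfold d1 d2
  have h := abs_nonneg X
  have h2 : X ^ 2 = |X| ^ 2 := (sq_abs X).symm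
  rw [h2]
  constructor
  · rw [← div_eq_mul_inv, inv_le_iff_one_le_mul₀ (by positivity), div_mul_eq_mul_div, le_div_iff₀ (by positivity)]
    nlinarith [sq_nonneg (|X| - 1)]
  · rw [← mul_inv, ← div_eq_mul_inv, inv_le_iff_one_le_mul₀ (by positivity), div_mul_eq_mul_div,
      le_div_iff₀ (by positivity)]
    nlinarith [sq_nonneg (|X| - 1)]

lemma d1_anti {X Y : ℝ} (h : |X| ≤ |Y|) : d1 Y ≤ d1 X := by
  unfold d1
  exact inv_anti₀ (by positivity) (by linarith)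

/-- the frequencies can not both be small -/
lemma arith {γ x y : ℝ} {d e : ℕ} (hγ : 0 ≤ γ) (hx : 1 ≤ x) (hxy : x < y) (he : 1 ≤ e) (hed : e < d) {l μ : ℝ}
    (hl : 0 ≤ l) (hμ : 1 ≤ μ) {C z : ℝ} (hC : 0 ≤ C) (s : ℝ) (hs : s = 1 ∨ s = -1)
    (h1 : z ≤ C * d2 (x ^ d * l + s * (y ^ d * μ)) * γ)
    (h2 : x ^ e * l + s * (y ^ e * μ) ≠ 0 → z ≤ C * d2 (x ^ d * l + s * (y ^ d * μ)) * (2 / |x ^ e * l + s * (y ^ e * μ)|)) :
    z ≤ C * (8 + 4 * γ) * d1 (x ^ d * l - y ^ d * μ) * (μ * (y - x))⁻¹ := by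
  have hx0 : 0 < x := by linarith
  have hy0 : 0 < y := by linarith
  have hy1 : 1 ≤ y := by linarith
  have hyx : 0 < y - x := by linarith
  have hμ0 : 0 < μ := by linarith
  obtain ⟨W, hW⟩ : ∃ W : ℝ, W = μ * (y - x) := ⟨_, rfl⟩
  have hW0 : 0 < W := by rw [hW]; positivity
  rw [← hW]
  have hyd : 1 ≤ y ^ (d - 1) := one_le_pow₀ hy1
  have ed : y ^ d = y ^ (d - 1) * y := by rw [← pow_succ]; congr 1; omega
  rcases hs with hs | hs
  · -- sign plus
    rw [hs, one_mul] at h1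
    have g1 := (d2_d1 (x ^ d * l + y ^ d * μ)).2
    have hp1 : 0 ≤ x ^ d * l := by positivity
    have hp2 : 0 ≤ y ^ d * μ := by positivity
    have g2 : d1 (x ^ d * l + y ^ d * μ) ≤ d1 (x ^ d * l - y ^ d * μ) := by
      apply d1_anti
      rw [abs_of_nonneg (by positivity : 0 ≤ x ^ d * l + y ^ d * μ), abs_le]
      constructor <;> linarith
    have g3 : d1 (x ^ d * l + y ^ d * μ) ≤ W⁻¹ := by
      unfold d1
      apply inv_anti₀ hW0
      rw [abs_of_nonneg (by positivity), hW]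
      have : μ * (y - x) ≤ y ^ d * μ := by
        rw [mul_comm (y ^ d)]
        apply mul_le_mul_of_nonneg_left _ hμ0.le
        rw [ed]
        nlinarith
      linarith
    have g4 := (d1_pos (x ^ d * l + y ^ d * μ)).le
    have g5 := (d1_pos (x ^ d * l - y ^ d * μ)).le
    have g6 : d1 (x ^ d * l + y ^ d * μ) * d1 (x ^ d * l + y ^ d * μ) ≤ d1 (x ^ d * l - y ^ d * μ) * W⁻¹ :=
      mul_le_mul g2 g3 g4 g5
    have hWi : 0 ≤ W⁻¹ := by positivity
    calc z ≤ C * d2 (x ^ d * l + y ^ d * μ) * γ := h1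
      _ ≤ C * (2 * (d1 (x ^ d * l - y ^ d * μ) * W⁻¹)) * γ := by
          have : d2 (x ^ d * l + y ^ d * μ) ≤ 2 * (d1 (x ^ d * l - y ^ d * μ) * W⁻¹) := by linarith
          gcongr
      _ = C * (2 * γ) * d1 (x ^ d * l - y ^ d * μ) * W⁻¹ := by ring
      _ ≤ _ := by
          gcongr
          linarith
  · -- sign minus
    have eX : x ^ d * l + s * (y ^ d * μ) = x ^ d * l - y ^ d * μ := by rw [hs]; ring
    have eY : x ^ e * l + s * (y ^ e * μ) = x ^ e * l - y ^ e * μ := by rw [hs]; ring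
    rw [eX] at h1
    rw [eX, eY] at h2
    obtain ⟨X, hX⟩ : ∃ X : ℝ, X = x ^ d * l - y ^ d * μ := ⟨_, rfl⟩
    obtain ⟨Y, hY⟩ : ∃ Y : ℝ, Y = x ^ e * l - y ^ e * μ := ⟨_, rfl⟩
    rw [← hX] at h1 h2 ⊢
    rw [← hY] at h2
    obtain ⟨g, hg⟩ : ∃ g : ℕ, g = d - e := ⟨_, rfl⟩
    have hg1 : 1 ≤ g := by omega
    have exd : x ^ d = x ^ g * x ^ e := by rw [← pow_add]; congr 1; omega
    have eyd : y ^ d = y ^ g * y ^ e := by rw [← pow_add]; congr 1; omega
    have hgap := pow_gap hx0.le hxy.le hg1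
    have hd1 := (d1_pos X).le
    have hWi : 0 ≤ W⁻¹ := by positivity
    rcases le_or_gt |X| (y ^ (d - 1) * W / 2) with hc | hc
    · -- the second frequency is large
      have k1 : x ^ g * Y = X + y ^ e * μ * (y ^ g - x ^ g) := by
        rw [hX, hY, exd, eyd]
        ring
      have k2 : y ^ (d - 1) * W ≤ y ^ e * μ * (y ^ g - x ^ g) := by
        calc y ^ (d - 1) * W = y ^ e * μ * ((y - x) * y ^ (g - 1)) := by
              rw [hW]
              have : y ^ (d - 1) = y ^ e * y ^ (g - 1) := by rw [← pow_add]; congr 1; omega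
              rw [this]
              ring
          _ ≤ _ := by gcongr
      have k3 : y ^ (d - 1) * W / 2 ≤ x ^ g * |Y| := by
        have h3 : |x ^ g * Y| = x ^ g * |Y| := by rw [abs_mul, abs_of_pos (by positivity)]
        have h4 := le_abs_self (x ^ g * Y)
        have h5 := neg_abs_le X
        rw [← h3]
        linarith
      have k4 : x ^ g ≤ y ^ (d - 1) :=
        (pow_le_pow_left₀ hx0.le hxy.le g).trans (pow_le_pow_right₀ hy1 (by omega))
      have k5 : W / 2 ≤ |Y| := by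
        have h6 : y ^ (d - 1) * (W / 2) ≤ y ^ (d - 1) * |Y| := by
          calc y ^ (d - 1) * (W / 2) = y ^ (d - 1) * W / 2 := by ring
            _ ≤ x ^ g * |Y| := k3
            _ ≤ _ := by gcongr
        exact le_of_mul_le_mul_left h6 (by positivity)
      have hY0 : Y ≠ 0 := by
        intro h0
        rw [h0, abs_zero] at k5
        linarith
      have k6 : 2 / |Y| ≤ 4 * W⁻¹ := by
        rw [div_le_iff₀ (by positivity)]
        have : 4 * W⁻¹ * |Y| ≥ 4 * W⁻¹ * (W / 2) := by gcongr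
        have h7 : 4 * W⁻¹ * (W / 2) = 2 := by field_simp; norm_num
        linarith
      calc z ≤ C * d2 X * (2 / |Y|) := h2 hY0
        _ ≤ C * (2 * d1 X) * (4 * W⁻¹) := by
            have := (d2_d1 X).1
            have h8 := (d2_pos X).le
            gcongr
        _ = C * 8 * d1 X * W⁻¹ := by ring
        _ ≤ _ := by
            gcongr
            linarith
    · have k1 : W / 2 ≤ 1 + |X| := by
        have : W ≤ y ^ (d - 1) * W := le_mul_of_one_le_left hW0.le hyd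
        linarith
      have k2 : d1 X ≤ 2 * W⁻¹ := by
        unfold d1
        rw [inv_le_iff_one_le_mul₀ (by positivity)]
        have : 2 * W⁻¹ * (1 + |X|) ≥ 2 * W⁻¹ * (W / 2) := by gcongr
        have h7 : 2 * W⁻¹ * (W / 2) = 1 := by field_simp
        linarith
      calc z ≤ C * d2 X * γ := h1
        _ ≤ C * (2 * (d1 X * (2 * W⁻¹))) * γ := by
            have h3 := (d2_d1 X).2
            have h4 : d1 X * d1 X ≤ d1 X * (2 * W⁻¹) := by gcongr
            have : d2 X ≤ 2 * (d1 X * (2 * W⁻¹)) := by linarith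
            gcongr
        _ = C * (4 * γ) * d1 X * W⁻¹ := by ring
        _ ≤ _ := by
            gcongr
            linarith

/-- expansion of a product -/
lemma exp_s {α β γ : ℝ} {d e : ℕ} {x y y1 y2 : ℝ} (S1 S2 : Finset ℕ) (c1 c2 : ℕ → ℂ) (s : ℝ)
    {B : ℕ → ℕ → ℝ}
    (hB : ∀ m1 ∈ S1, ∀ m2 ∈ S2, ‖∫ θ in bx α β γ, (eta α β θ.1 : ℂ) *
      (ex (θ.1 * (x ^ d * lm m1 + s * (y ^ d * lm m2))) * ex (θ.2 * (x ^ e * lm m1 + s * (y ^ e * lm m2))))‖ ≤ B m1 m2) :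
    ‖∫ θ in bx α β γ, (eta α β θ.1 : ℂ) * (ZZ S1 c1 (uu d e x y1 θ) *
      ∑ m ∈ S2, c2 m * ex (s * (uu d e y y2 θ * lm m)))‖ ≤ ∑ m1 ∈ S1, ∑ m2 ∈ S2, ‖c1 m1‖ * ‖c2 m2‖ * B m1 m2 := by
  have e1 : ∀ θ : ℝ × ℝ, (eta α β θ.1 : ℂ) * (ZZ S1 c1 (uu d e x y1 θ) *
      ∑ m ∈ S2, c2 m * ex (s * (uu d e y y2 θ * lm m))) = ∑ m1 ∈ S1, ∑ m2 ∈ S2,
      (c1 m1 * c2 m2 * ex (y1 * lm m1 + s * (y2 * lm m2))) * ((eta α β θ.1 : ℂ) *
      (ex (θ.1 * (x ^ d * lm m1 + s * (y ^ d * lm m2))) * ex (θ.2 * (x ^ e * lm m1 + s * (y ^ e * lm m2))))) := by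
    intro θ
    unfold ZZ
    rw [Finset.sum_mul_sum, Finset.mul_sum]
    refine Finset.sum_congr rfl fun m1 _ => ?_
    rw [Finset.mul_sum]
    refine Finset.sum_congr rfl fun m2 _ => ?_
    have h : ex (uu d e x y1 θ * lm m1) * ex (s * (uu d e y y2 θ * lm m2)) =
        ex (y1 * lm m1 + s * (y2 * lm m2)) * (ex (θ.1 * (x ^ d * lm m1 + s * (y ^ d * lm m2))) *
          ex (θ.2 * (x ^ e * lm m1 + s * (y ^ e * lm m2)))) := by
      rw [← ex_add, ← ex_add, ← ex_add]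
      congr 1
      unfold uu
      ring
    calc (eta α β θ.1 : ℂ) * (c1 m1 * ex (uu d e x y1 θ * lm m1) * (c2 m2 * ex (s * (uu d e y y2 θ * lm m2)))) =
          (eta α β θ.1 : ℂ) * (c1 m1 * c2 m2) * (ex (uu d e x y1 θ * lm m1) * ex (s * (uu d e y y2 θ * lm m2))) := by
          ring
      _ = _ := by rw [h]; ring
  have hc : ∀ m1 m2 : ℕ, IntegrableOn (fun θ : ℝ × ℝ => (c1 m1 * c2 m2 * ex (y1 * lm m1 + s * (y2 * lm m2))) *
      ((eta α β θ.1 : ℂ) * (ex (θ.1 * (x ^ d * lm m1 + s * (y ^ d * lm m2))) *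
        ex (θ.2 * (x ^ e * lm m1 + s * (y ^ e * lm m2)))))) (bx α β γ) := by
    intro m1 m2
    apply ContinuousOn.integrableOn_compact (bx_cpt α β γ)
    apply Continuous.continuousOn
    apply continuous_const.mul
    apply Continuous.mul
    · unfold QP.eta
      fun_prop
    · exact (ex_cont.comp (by fun_prop)).mul (ex_cont.comp (by fun_prop))
  simp_rw [e1]
  rw [integral_finsetSum _ fun m1 _ => integrable_finsetSum _ fun m2 _ => hc m1 m2]
  refine (norm_sum_le _ _).trans (Finset.sum_le_sum fun m1 h1 => ?_)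
  rw [integral_finsetSum _ fun m2 _ => hc m1 m2]
  refine (norm_sum_le _ _).trans (Finset.sum_le_sum fun m2 h2 => ?_)
  rw [integral_const_mul, norm_mul, norm_mul, norm_mul, norm_ex, mul_one]
  have := hB m1 h1 m2 h2
  gcongr

end Pool.Agent.H471.CR
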