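import Pool.Agent.H471.QP.Spc

set_option autoImplicit false

/-!
Sums over square roots.
-/

namespace Pool.Agent.H471.CR

open Finset
open Pool.Agent.H471.QP

lemma d1_shift {a b : ℝ} (h : |b| ≤ |a| + 1) : d1 a ≤ 2 * d1 b := by
  unfold d1
  have h1 := abs_nonneg a
  have h2 := abs_nonneg b
  rw [← div_eq_mul_inv, inv_le_iff_one_le_mul₀ (by positivity), div_mul_eq_mul_div, le_div_iff₀ (by positivity)]
  linarith

/-- summation over the integers with the same integral square root -/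
lemma sqrt_group (Y : ℕ) {f G : ℕ → ℝ} (hG : ∀ j, 0 ≤ G j) (h : ∀ m, 1 ≤ m → f m ≤ G (Nat.sqrt m)) :
    ∑ m ∈ Icc 1 (Y ^ 2), f m ≤ ∑ j ∈ Icc 1 Y, (2 * (j : ℝ) + 1) * G j := by
  have hmaps : ∀ m ∈ Icc 1 (Y ^ 2), Nat.sqrt m ∈ Icc 1 Y := by
    intro m hm
    rw [mem_Icc] at hm ⊢
    refine ⟨Nat.le_sqrt.2 (by simpa using hm.1), ?_⟩
    calc Nat.sqrt m ≤ Nat.sqrt (Y ^ 2) := Nat.sqrt_le_sqrt hm.2
      _ = Y := Nat.sqrt_eq' Y
  rw [← sum_fiberwise_of_maps_to hmaps]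
  refine sum_le_sum fun j _ => ?_
  have h1 : ∀ m ∈ (Icc 1 (Y ^ 2)).filter (fun m => Nat.sqrt m = j), f m ≤ G j := by
    intro m hm
    rw [mem_filter, mem_Icc] at hm
    rw [← hm.2]
    exact h m hm.1.1
  have h2 : ((Icc 1 (Y ^ 2)).filter (fun m => Nat.sqrt m = j)).card ≤ 2 * j + 1 := by
    have : (Icc 1 (Y ^ 2)).filter (fun m => Nat.sqrt m = j) ⊆ Icc (j ^ 2) (j ^ 2 + 2 * j) := by
      intro m hm
      rw [mem_filter] at hm
      rw [mem_Icc]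
      have a1 := Nat.sqrt_le' m
      have a2 := Nat.lt_succ_sqrt' m
      rw [hm.2] at a1 a2
      refine ⟨a1, ?_⟩
      have : (j.succ) ^ 2 = j ^ 2 + 2 * j + 1 := by rw [Nat.succ_eq_add_one]; ring
      omega
    refine (card_le_card this).trans ?_
    rw [Nat.card_Icc]
    omega
  calc ∑ m ∈ (Icc 1 (Y ^ 2)).filter (fun m => Nat.sqrt m = j), f m ≤
        ((Icc 1 (Y ^ 2)).filter (fun m => Nat.sqrt m = j)).card • G j := sum_le_card_nsmul _ _ _ h1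
    _ ≤ _ := by
        rw [nsmul_eq_mul]
        have : (((Icc 1 (Y ^ 2)).filter (fun m => Nat.sqrt m = j)).card : ℝ) ≤ 2 * j + 1 := by exact_mod_cast h2
        exact mul_le_mul_of_nonneg_right this (hG j)

lemma rpow_sqrt {m : ℕ} (hm : 1 ≤ m) : (m : ℝ) ^ (-(3 / 4) : ℝ) ≤ (Nat.sqrt m : ℝ) ^ (-(3 / 2) : ℝ) := by
  have hj : 1 ≤ Nat.sqrt m := Nat.le_sqrt.2 (by simpa using hm)
  have hj0 : (0 : ℝ) < Nat.sqrt m := by exact_mod_cast hj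
  have h1 : ((Nat.sqrt m : ℝ)) ^ 2 ≤ m := by exact_mod_cast Nat.sqrt_le' m
  calc (m : ℝ) ^ (-(3 / 4) : ℝ) ≤ (((Nat.sqrt m : ℝ)) ^ 2) ^ (-(3 / 4) : ℝ) :=
        Real.rpow_le_rpow_of_nonpos (by positivity) h1 (by norm_num)
    _ = _ := by
        rw [← Real.rpow_natCast, ← Real.rpow_mul hj0.le]
        congr 1
        push_cast
        norm_num

/-- sum over `m` of `m ^ (-3/4)` times a kernel of `√m` -/
lemma sum_L1 (Y : ℕ) (hY : 1 ≤ Y) {s : ℝ} (hs : 0 ≤ s) :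
    ∑ m ∈ Icc 1 (Y ^ 2), (m : ℝ) ^ (-(3 / 4) : ℝ) * d1 (√(m : ℝ) - s) ≤ 36 * (1 + Real.log (Y + s + 1)) := by
  have h1 := sqrt_group Y (f := fun m => (m : ℝ) ^ (-(3 / 4) : ℝ) * d1 (√(m : ℝ) - s))
    (G := fun j => (j : ℝ) ^ (-(3 / 2) : ℝ) * (2 * d1 ((j : ℝ) - s)))
    (fun j => mul_nonneg (by positivity) (mul_nonneg (by norm_num) (d1_pos _).le)) (by
      intro m hm
      have hd := (d1_pos (√(m : ℝ) - s)).le
      have h2 : d1 (√(m : ℝ) - s) ≤ 2 * d1 ((Nat.sqrt m : ℝ) - s) := by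
        apply d1_shift
        have a1 : (Nat.sqrt m : ℝ) ≤ √(m : ℝ) := Real.nat_sqrt_le_real_sqrt
        have a2 : √(m : ℝ) ≤ (Nat.sqrt m : ℝ) + 1 := Real.real_sqrt_le_nat_sqrt_succ
        have : (Nat.sqrt m : ℝ) - s = (√(m : ℝ) - s) - (√(m : ℝ) - Nat.sqrt m) := by ring
        rw [this]
        refine (abs_sub _ _).trans ?_
        have : |√(m : ℝ) - Nat.sqrt m| ≤ 1 := by
          rw [abs_le]
          constructor <;> linarith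
        linarith
      exact mul_le_mul (rpow_sqrt hm) h2 hd (by positivity))
  refine h1.trans ?_
  have h2 : ∀ j ∈ Icc 1 Y, (2 * (j : ℝ) + 1) * ((j : ℝ) ^ (-(3 / 2) : ℝ) * (2 * d1 ((j : ℝ) - s))) ≤
      6 * d1 ((j : ℝ) - s) := by
    intro j hj
    rw [mem_Icc] at hj
    have hj1 : (1 : ℝ) ≤ j := by exact_mod_cast hj.1
    have hd := (d1_pos ((j : ℝ) - s)).le
    have h3 : (j : ℝ) ^ (-(3 / 2) : ℝ) ≤ (j : ℝ) ^ (-1 : ℝ) :=
      Real.rpow_le_rpow_of_exponent_le hj1 (by norm_num)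
    rw [Real.rpow_neg_one] at h3
    have h4 : (2 * (j : ℝ) + 1) * (j : ℝ) ^ (-(3 / 2) : ℝ) ≤ 3 := by
      calc (2 * (j : ℝ) + 1) * (j : ℝ) ^ (-(3 / 2) : ℝ) ≤ (3 * j) * (j : ℝ)⁻¹ := by
            gcongr
            linarith
        _ = 3 := by field_simp
    calc _ = (2 * (j : ℝ) + 1) * (j : ℝ) ^ (-(3 / 2) : ℝ) * (2 * d1 ((j : ℝ) - s)) := by ring
      _ ≤ 3 * (2 * d1 ((j : ℝ) - s)) := by gcongr
      _ = _ := by ring
  refine (sum_le_sum h2).trans ?_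
  rw [← mul_sum]
  have h5 := sum_d1 (S := Icc 1 Y) (x := fun j : ℕ => (j : ℝ) - s) (ρ := 1) one_pos le_rfl (by
    intro i _ j _ hij
    have : (i : ℝ) - s - ((j : ℝ) - s) = ((i : ℤ) - (j : ℤ) : ℤ) := by push_cast; ring
    rw [this, ← Int.cast_abs]
    have : 1 ≤ |(i : ℤ) - (j : ℤ)| := by
      apply Int.one_le_abs
      omega
    exact_mod_cast this) (R := Y + s + 1) (by
      have : (0:ℝ) ≤ Y := Nat.cast_nonneg Y
      linarith) (by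
    intro j hj
    rw [mem_Icc] at hj
    have : (j : ℝ) ≤ Y := by exact_mod_cast hj.2
    have h0 : (0:ℝ) ≤ j := Nat.cast_nonneg j
    rw [abs_le]
    constructor <;> linarith)
  rw [div_one, div_one] at h5
  linarith

lemma sum_inv (M : ℕ) : ∑ m ∈ Icc 1 M, (m : ℝ)⁻¹ ≤ 1 + Real.log M := by
  have h1 := harmonic_le_one_add_log M
  rw [harmonic_eq_sum_Icc] at h1
  push_cast at h1
  exact h1

/-- sum of the inverse distances -/
lemma sum_dist (M : ℕ) (hM : 1 ≤ M) (n : ℕ) (hn : n ∈ Icc 1 M) :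
    ∑ m ∈ (Icc 1 M).filter (fun m => m ≠ n), |(m : ℝ) - n|⁻¹ ≤ 12 * (1 + Real.log (2 * M)) := by
  have hM1 : (1:ℝ) ≤ M := by exact_mod_cast hM
  have h5 := sum_d1 (S := (Icc 1 M).filter (fun m => m ≠ n)) (x := fun j : ℕ => (j : ℝ) - n) (ρ := 1) one_pos le_rfl (by
    intro i _ j _ hij
    have : (i : ℝ) - n - ((j : ℝ) - n) = ((i : ℤ) - (j : ℤ) : ℤ) := by push_cast; ring
    rw [this, ← Int.cast_abs]
    have : 1 ≤ |(i : ℤ) - (j : ℤ)| := by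
      apply Int.one_le_abs
      omega
    exact_mod_cast this) (R := 2 * M) (by linarith) (by
    intro j hj
    rw [mem_filter, mem_Icc] at hj
    rw [mem_Icc] at hn
    have a1 : (j : ℝ) ≤ M := by exact_mod_cast hj.1.2
    have a2 : (n : ℝ) ≤ M := by exact_mod_cast hn.2
    have h0 : (0:ℝ) ≤ j := Nat.cast_nonneg j
    have h1 : (0:ℝ) ≤ n := Nat.cast_nonneg n
    rw [abs_le]
    constructor <;> linarith)
  rw [div_one, div_one] at h5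
  have h6 : ∀ m ∈ (Icc 1 M).filter (fun m => m ≠ n), |(m : ℝ) - n|⁻¹ ≤ 2 * d1 ((m : ℝ) - n) := by
    intro m hm
    rw [mem_filter] at hm
    have : (1 : ℝ) ≤ |(m : ℝ) - n| := by
      have e : (m : ℝ) - n = ((m : ℤ) - (n : ℤ) : ℤ) := by push_cast; ring
      rw [e, ← Int.cast_abs]
      have : 1 ≤ |(m : ℤ) - (n : ℤ)| := by
        apply Int.one_le_abs
        have := hm.2
        omega
      exact_mod_cast this
    unfold d1
    rw [← div_eq_mul_inv, inv_le_iff_one_le_mul₀ (by linarith), div_mul_eq_mul_div, le_div_iff₀ (by positivity)]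
    linarith
  refine (sum_le_sum h6).trans ?_
  rw [← mul_sum]
  linarith

/-- **the sum over the pairs of different square roots** -/
lemma sum_pairs (M : ℕ) (hM : 1 ≤ M) :
    ∑ m ∈ Icc 1 M, ∑ n ∈ (Icc 1 M).filter (fun n => n ≠ m), (m : ℝ) ^ (-(3 / 4) : ℝ) * (n : ℝ) ^ (-(3 / 4) : ℝ) *
      ((√(m : ℝ) + √(n : ℝ)) * |(n : ℝ) - m|⁻¹) ≤ 48 * (1 + Real.log (2 * M)) ^ 2 := by
  have hM1 : (1:ℝ) ≤ M := by exact_mod_cast hM
  have hL : 0 ≤ Real.log (2 * M) := Real.log_nonneg (by linarith)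
  -- the weights
  have hw : ∀ m n : ℕ, 1 ≤ m → 1 ≤ n → (m : ℝ) ^ (-(3 / 4) : ℝ) * (n : ℝ) ^ (-(3 / 4) : ℝ) * (√(m : ℝ) + √(n : ℝ)) ≤
      2 * ((m : ℝ)⁻¹ + (n : ℝ)⁻¹) := by
    have key : ∀ m n : ℝ, 1 ≤ m → m ≤ n → m ^ (-(3 / 4) : ℝ) * n ^ (-(3 / 4) : ℝ) * (√m + √n) ≤ 2 * m⁻¹ := by
      intro m n hm hmn
      have hm0 : 0 < m := by linarith
      have hn0 : 0 < n := by linarith
      have a1 : √m + √n ≤ 2 * √n := by
        have := Real.sqrt_le_sqrt hmn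
        linarith
      have a2 : n ^ (-(3 / 4) : ℝ) * √n = n ^ (-(1 / 4) : ℝ) := by
        rw [Real.sqrt_eq_rpow, ← Real.rpow_add hn0]
        norm_num
      have a3 : n ^ (-(1 / 4) : ℝ) ≤ m ^ (-(1 / 4) : ℝ) := Real.rpow_le_rpow_of_nonpos hm0 hmn (by norm_num)
      have a4 : m ^ (-(3 / 4) : ℝ) * m ^ (-(1 / 4) : ℝ) = m⁻¹ := by
        rw [← Real.rpow_add hm0, ← Real.rpow_neg_one]
        norm_num
      calc m ^ (-(3 / 4) : ℝ) * n ^ (-(3 / 4) : ℝ) * (√m + √n) ≤ m ^ (-(3 / 4) : ℝ) * n ^ (-(3 / 4) : ℝ) * (2 * √n) := by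
            gcongr
        _ = 2 * (m ^ (-(3 / 4) : ℝ) * (n ^ (-(3 / 4) : ℝ) * √n)) := by ring
        _ ≤ 2 * (m ^ (-(3 / 4) : ℝ) * m ^ (-(1 / 4) : ℝ)) := by rw [a2]; gcongr
        _ = _ := by rw [a4]
    intro m n hm hn
    have hm1 : (1:ℝ) ≤ m := by exact_mod_cast hm
    have hn1 : (1:ℝ) ≤ n := by exact_mod_cast hn
    have i1 : 0 ≤ (m : ℝ)⁻¹ := by positivity
    have i2 : 0 ≤ (n : ℝ)⁻¹ := by positivity
    rcases le_total (m : ℝ) n with h | h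
    · have := key m n hm1 h
      linarith
    · have := key n m hn1 h
      have e : (m : ℝ) ^ (-(3 / 4) : ℝ) * (n : ℝ) ^ (-(3 / 4) : ℝ) * (√(m : ℝ) + √(n : ℝ)) =
        (n : ℝ) ^ (-(3 / 4) : ℝ) * (m : ℝ) ^ (-(3 / 4) : ℝ) * (√(n : ℝ) + √(m : ℝ)) := by ring
      rw [e]
      linarith
  have h1 : ∑ m ∈ Icc 1 M, ∑ n ∈ (Icc 1 M).filter (fun n => n ≠ m), (m : ℝ) ^ (-(3 / 4) : ℝ) * (n : ℝ) ^ (-(3 / 4) : ℝ) *
      ((√(m : ℝ) + √(n : ℝ)) * |(n : ℝ) - m|⁻¹) ≤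
      ∑ m ∈ Icc 1 M, ∑ n ∈ (Icc 1 M).filter (fun n => n ≠ m),
        (2 * ((m : ℝ)⁻¹ * |(n : ℝ) - m|⁻¹) + 2 * ((n : ℝ)⁻¹ * |(m : ℝ) - n|⁻¹)) := by
    refine sum_le_sum fun m hm => sum_le_sum fun n hn => ?_
    rw [mem_Icc] at hm
    rw [mem_filter, mem_Icc] at hn
    have h2 := hw m n hm.1 hn.1.1
    have h3 : 0 ≤ |(n : ℝ) - m|⁻¹ := by positivity
    calc _ = ((m : ℝ) ^ (-(3 / 4) : ℝ) * (n : ℝ) ^ (-(3 / 4) : ℝ) * (√(m : ℝ) + √(n : ℝ))) * |(n : ℝ) - m|⁻¹ := by ring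
      _ ≤ (2 * ((m : ℝ)⁻¹ + (n : ℝ)⁻¹)) * |(n : ℝ) - m|⁻¹ := by gcongr
      _ = _ := by rw [abs_sub_comm (m : ℝ) n]; ring
  refine h1.trans ?_
  simp_rw [sum_add_distrib]
  have h2 : ∑ m ∈ Icc 1 M, ∑ n ∈ (Icc 1 M).filter (fun n => n ≠ m), 2 * ((n : ℝ)⁻¹ * |(m : ℝ) - n|⁻¹) =
      ∑ m ∈ Icc 1 M, ∑ n ∈ (Icc 1 M).filter (fun n => n ≠ m), 2 * ((m : ℝ)⁻¹ * |(n : ℝ) - m|⁻¹) := by
    simp_rw [sum_filter]
    rw [sum_comm]
    refine sum_congr rfl fun m _ => sum_congr rfl fun n _ => ?_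
    by_cases h : n = m
    · simp [h]
    · rw [if_pos (Ne.symm h), if_pos h]
  rw [h2]
  have h3 : ∑ m ∈ Icc 1 M, ∑ n ∈ (Icc 1 M).filter (fun n => n ≠ m), 2 * ((m : ℝ)⁻¹ * |(n : ℝ) - m|⁻¹) ≤
      24 * (1 + Real.log (2 * M)) ^ 2 := by
    calc _ ≤ ∑ m ∈ Icc 1 M, (m : ℝ)⁻¹ * (24 * (1 + Real.log (2 * M))) := by
          refine sum_le_sum fun m hm => ?_
          rw [← mul_sum, ← mul_sum]
          have h4 := sum_dist M hM m hm
          have h5 : 0 ≤ (m : ℝ)⁻¹ := by positivity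
          calc 2 * ((m : ℝ)⁻¹ * ∑ n ∈ (Icc 1 M).filter (fun n => n ≠ m), |(n : ℝ) - m|⁻¹) ≤
                2 * ((m : ℝ)⁻¹ * (12 * (1 + Real.log (2 * M)))) := by gcongr
            _ = _ := by ring
      _ = (∑ m ∈ Icc 1 M, (m : ℝ)⁻¹) * (24 * (1 + Real.log (2 * M))) := by rw [sum_mul]
      _ ≤ (1 + Real.log (2 * M)) * (24 * (1 + Real.log (2 * M))) := by
          have h4 := sum_inv M
          have h5 : Real.log M ≤ Real.log (2 * M) := Real.log_le_log (by linarith) (by linarith)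
          have h6 : 0 ≤ 24 * (1 + Real.log (2 * M)) := by positivity
          exact mul_le_mul_of_nonneg_right (by linarith) h6
      _ = _ := by ring
  linarith

/-- a convergent sum -/
lemma sum_conv : ∃ C : ℝ, 0 < C ∧ ∀ M : ℕ, ∑ m ∈ Icc 1 M, (m : ℝ) ^ (-(9 / 8) : ℝ) ≤ C := by
  have hs : Summable (fun k : ℕ => (k:ℝ) ^ (-(9 / 8):ℝ)) := by
    rw [Real.summable_nat_rpow]
    norm_num
  refine ⟨(∑' k : ℕ, (k:ℝ) ^ (-(9 / 8):ℝ)) + 1, ?_, fun M => ?_⟩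
  · have : 0 ≤ ∑' k : ℕ, (k:ℝ) ^ (-(9 / 8):ℝ) := tsum_nonneg fun k => by positivity
    linarith
  · have := hs.sum_le_tsum (Icc 1 M) (fun k _ => by positivity)
    linarith

end Pool.Agent.H471.CR
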