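import Pool.Agent.H471.CR.San
import Pool.Agent.H471.CR.Ker
import Pool.Agent.H471.CR.Sum

set_option autoImplicit false

/-!
Mean values of the error term of the circle problem over the parameters.
-/

namespace Pool.Agent.H471.CR

open Complex MeasureTheory Set
open Pool.Agent.H471.QP
open Pool.Agent.H383 Pool.Agent.H383.Gauss Pool.Agent.H383.Circ Pool.Agent.H383.Gen

/-- the coefficients -/
noncomputable def cc (δ : ℝ) (m : ℕ) : ℂ :=
  (ag m : ℂ) * (cexp (((-(3 * Real.pi/4) : ℝ) : ℂ) * I) * wg (√(m:ℝ) * δ))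

/-- the coefficients of a difference -/
noncomputable def cd (δ τ : ℝ) (m : ℕ) : ℂ := cc δ m * (ex (τ * lm m) - 1)

lemma VV_re (Y : ℕ) (δ R : ℝ) : VV Y δ R = (ZZ (Finset.Icc 1 (Y^2)) (cc δ) R).re := by
  unfold VV ZZ
  rw [Complex.re_sum]
  refine Finset.sum_congr rfl fun m _ => ?_
  unfold GW.wt cc ex lm
  have e : cexp (((2 * Real.pi * (R * √(m:ℝ)) - 3 * Real.pi/4 : ℝ) : ℂ) * I) =
      cexp (((-(3 * Real.pi/4) : ℝ) : ℂ) * I) * cexp (I * ((R * (2 * Real.pi * √(m:ℝ)) : ℝ) : ℂ)) := by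
    rw [← Complex.exp_add]
    congr 1
    push_cast
    ring
  rw [e, ← Complex.re_ofReal_mul]
  congr 1
  ring

lemma VV_diff (Y : ℕ) (δ R τ : ℝ) : VV Y δ (R + τ) - VV Y δ R = (ZZ (Finset.Icc 1 (Y^2)) (cd δ τ) R).re := by
  rw [VV_re, VV_re, ← Complex.sub_re]
  congr 1
  unfold ZZ cd
  rw [← Finset.sum_sub_distrib]
  refine Finset.sum_congr rfl fun m _ => ?_
  have : ex ((R + τ) * lm m) = ex (R * lm m) * ex (τ * lm m) := by rw [← ex_add]; congr 1; ring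
  rw [this]
  ring

lemma cc_norm {δ : ℝ} (hδ : 0 < δ) {m : ℕ} (hm : 1 ≤ m) : ‖cc δ m‖ ≤ ag m := by
  have hm0 : (0:ℝ) < m := by exact_mod_cast hm
  have h1 : 0 < √(m:ℝ) * δ := by positivity
  unfold cc
  rw [norm_mul, norm_mul, Complex.norm_exp_ofReal_mul_I, one_mul, Complex.norm_real, Real.norm_of_nonneg (ag_nonneg m)]
  exact mul_le_of_le_one_right (ag_nonneg m) (wg_Wt.one _ h1)

lemma ex_sub_one (t : ℝ) : ‖ex t - 1‖ ≤ 2 ∧ ‖ex t - 1‖ ^ 2 ≤ 2 * |t| := by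
  have h1 : ‖ex t - 1‖ ≤ 2 := by
    refine (norm_sub_le _ _).trans ?_
    rw [norm_ex, norm_one]
    norm_num
  have h2 : ‖ex t - 1‖ ≤ |t| := by
    unfold ex
    exact Real.norm_exp_I_mul_ofReal_sub_one_le
  refine ⟨h1, ?_⟩
  have := norm_nonneg (ex t - 1)
  nlinarith

/-- measurable and bounded on the box -/
structure BM (α β γ : ℝ) (g : ℝ × ℝ → ℂ) : Prop where
  meas : Measurable g
  bd : ∃ M : ℝ, ∀ θ ∈ bx α β γ, ‖g θ‖ ≤ M

lemma BM.int_mul {α β γ : ℝ} {f g : ℝ × ℝ → ℂ} (hf : BM α β γ f) (hg : BM α β γ g) :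
    IntegrableOn (fun θ => f θ * (starRingEnd ℂ) (g θ)) (bx α β γ) := by
  obtain ⟨M, hM⟩ := hf.bd
  obtain ⟨N, hN⟩ := hg.bd
  apply Measure.integrableOn_of_bounded (M := M * N) (bx_cpt α β γ).measure_lt_top.ne
  · exact (hf.meas.mul (continuous_star.measurable.comp hg.meas)).aestronglyMeasurable
  · rw [ae_restrict_iff' (bx_cpt α β γ).measurableSet]
    refine Filter.Eventually.of_forall fun θ hθ => ?_
    rw [norm_mul, RCLike.norm_conj]
    exact mul_le_mul (hM θ hθ) (hN θ hθ) (norm_nonneg _) ((norm_nonneg _).trans (hM θ hθ))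

lemma BM.int_sq {α β γ : ℝ} {f : ℝ × ℝ → ℂ} (hf : BM α β γ f) : IntegrableOn (fun θ => ‖f θ‖ ^ 2) (bx α β γ) := by
  have h := (hf.int_mul hf).norm
  refine h.congr (Filter.Eventually.of_forall fun θ => ?_)
  simp only [norm_mul, RCLike.norm_conj]
  ring

lemma BM.sub {α β γ : ℝ} {f g : ℝ × ℝ → ℂ} (hf : BM α β γ f) (hg : BM α β γ g) :
    BM α β γ (fun θ => f θ - g θ) := by
  obtain ⟨M, hM⟩ := hf.bd
  obtain ⟨N, hN⟩ := hg.bd
  exact ⟨hf.meas.sub hg.meas, M + N, fun θ hθ => (norm_sub_le _ _).trans (add_le_add (hM θ hθ) (hN θ hθ))⟩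

lemma BM.of_cont {α β γ : ℝ} {f : ℝ × ℝ → ℂ} (hf : Continuous f) : BM α β γ f := by
  refine ⟨hf.measurable, ?_⟩
  obtain ⟨M, hM⟩ := (bx_cpt α β γ).exists_bound_of_continuousOn hf.continuousOn
  exact ⟨M, hM⟩

/-- Cauchy-Schwarz -/
lemma cs_bm {α β γ P Q : ℝ} {f g : ℝ × ℝ → ℂ} (hf : BM α β γ f) (hg : BM α β γ g)
    (hP : 0 < P) (hQ : 0 < Q) (h1 : ∫ θ in bx α β γ, ‖f θ‖ ^ 2 ≤ P) (h2 : ∫ θ in bx α β γ, ‖g θ‖ ^ 2 ≤ Q) :
    ‖∫ θ in bx α β γ, f θ * (starRingEnd ℂ) (g θ)‖ ≤ √(P * Q) := by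
  set l : ℝ := √(Q / P) with hl
  have hl0 : 0 < l := Real.sqrt_pos.2 (by positivity)
  have hl2 : l * l = Q / P := Real.mul_self_sqrt (by positivity)
  have i1 := hf.int_sq
  have i2 := hg.int_sq
  have h3 : ‖∫ θ in bx α β γ, f θ * (starRingEnd ℂ) (g θ)‖ ≤
      ∫ θ in bx α β γ, (l / 2 * ‖f θ‖ ^ 2 + 1 / (2 * l) * ‖g θ‖ ^ 2) := by
    refine norm_integral_le_of_norm_le ((i1.const_mul _).add (i2.const_mul _)) (Filter.Eventually.of_forall fun θ => ?_)
    rw [norm_mul, RCLike.norm_conj]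
    have a1 : 0 ≤ (l * ‖f θ‖ - ‖g θ‖) ^ 2 := sq_nonneg _
    have e1 : l / 2 * ‖f θ‖ ^ 2 + 1 / (2 * l) * ‖g θ‖ ^ 2 = ‖f θ‖ * ‖g θ‖ + (l * ‖f θ‖ - ‖g θ‖) ^ 2 / (2 * l) := by
      field_simp
      ring
    rw [e1]
    have : 0 ≤ (l * ‖f θ‖ - ‖g θ‖) ^ 2 / (2 * l) := by positivity
    linarith
  rw [integral_add (i1.const_mul _) (i2.const_mul _), integral_const_mul, integral_const_mul] at h3
  refine h3.trans ?_
  have e2 : √(P * Q) = l / 2 * P + 1 / (2 * l) * Q := by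
    have e3 : P * Q = (l * P) * (l * P) := by
      have : (l * P) * (l * P) = (l * l) * (P * P) := by ring
      rw [this, hl2]
      field_simp
    rw [e3, Real.sqrt_mul_self (by positivity)]
    have e4 : Q = l * l * P := by rw [hl2]; field_simp
    rw [e4]
    field_simp
    ring
  rw [e2]
  gcongr

/-- the error term with the weight -/
noncomputable def gC (α β : ℝ) (d e : ℕ) (x y : ℝ) (θ : ℝ × ℝ) : ℂ := (rt α β θ : ℂ) * (En (uu d e x y θ) : ℂ)
/-- the polynomial with the weight -/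
noncomputable def gV (α β : ℝ) (Y : ℕ) (δ : ℝ) (d e : ℕ) (x y : ℝ) (θ : ℝ × ℝ) : ℂ :=
  (rt α β θ : ℂ) * (VV Y δ (uu d e x y θ) : ℂ)

lemma VV_cont (Y : ℕ) (δ : ℝ) : Continuous (VV Y δ) := by
  have : VV Y δ = fun R => (ZZ (Finset.Icc 1 (Y^2)) (cc δ) R).re := by
    funext R
    exact VV_re Y δ R
  rw [this]
  exact Complex.continuous_re.comp (ZZ_cont _ _)

lemma gV_bm {α β γ : ℝ} (Y : ℕ) (δ : ℝ) (d e : ℕ) (x y : ℝ) : BM α β γ (gV α β Y δ d e x y) := by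
  apply BM.of_cont
  unfold gV
  exact (Complex.continuous_ofReal.comp (rt_cont α β)).mul
    (Complex.continuous_ofReal.comp ((VV_cont Y δ).comp (uu_cont d e x y)))

lemma F_abs (R : ℝ) : F (max |R| 0) = F R := by
  have : max |R| 0 = |R| := max_eq_left (abs_nonneg R)
  rw [this]
  unfold F
  rw [sq_abs]

lemma F_meas : Measurable F := by
  have h1 : Monotone (fun R : ℝ => F (max R 0)) := fun a b h => F_mono (le_max_right _ _) (max_le_max_right 0 h)
  have h2 : Measurable ((fun R : ℝ => F (max R 0)) ∘ fun R : ℝ => |R|) := h1.measurable.comp continuous_abs.measurable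
  have h3 : ((fun R : ℝ => F (max R 0)) ∘ fun R : ℝ => |R|) = F := by
    funext R
    exact F_abs R
  rw [h3] at h2
  exact h2

lemma En_meas : Measurable En := by
  have h : En = fun R => (F R - Real.pi * R ^ 2) / √R := by
    funext R
    rfl
  rw [h]
  exact (F_meas.sub ((measurable_id.pow_const 2).const_mul _)).div (Real.continuous_sqrt.measurable)

lemma gC_bm {α β γ Y0 : ℝ} (hα : 0 < α) (hαβ : α ≤ β) (hγ : 0 ≤ γ) {d e : ℕ} (hed : e < d) {x y : ℝ}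
    (hx : 1 ≤ x) (hy : 0 ≤ y) (hyx : y ≤ Y0 * x ^ d) : BM α β γ (gC α β d e x y) := by
  refine ⟨?_, ?_⟩
  · unfold gC
    exact (Complex.continuous_ofReal.comp (rt_cont α β)).measurable.mul
      (Complex.measurable_ofReal.comp (En_meas.comp (uu_cont d e x y).measurable))
  · obtain ⟨A, hA⟩ : ∃ A : ℝ, A = (Y0 + γ + β) * x ^ d := ⟨_, rfl⟩
    refine ⟨(β - α) * ((F A + Real.pi * A ^ 2) / √(α * x ^ d)), fun θ hθ => ?_⟩
    have h1 := uu_lb (d := d) (e := e) (by linarith : 0 ≤ x) hy hθ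
    have h2 := uu_ub (e := e) hγ hed hx hyx hθ
    rw [← hA] at h2
    have h3 : 0 < α * x ^ d := by positivity
    have h4 : 0 < uu d e x y θ := by linarith
    unfold gC
    rw [norm_mul, Complex.norm_real, Complex.norm_real, Real.norm_eq_abs, Real.norm_eq_abs]
    have h5 : |En (uu d e x y θ)| ≤ (F A + Real.pi * A ^ 2) / √(α * x ^ d) := by
      unfold En
      rw [abs_div, abs_of_nonneg (Real.sqrt_nonneg _)]
      have h6 : |F (uu d e x y θ) - Real.pi * uu d e x y θ ^ 2| ≤ F A + Real.pi * A ^ 2 := by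
        have a1 : F (uu d e x y θ) ≤ F A := F_mono h4.le h2
        have a2 : 0 ≤ F (uu d e x y θ) := by unfold F; positivity
        have a3 : Real.pi * uu d e x y θ ^ 2 ≤ Real.pi * A ^ 2 := by
          have := Real.pi_pos
          gcongr
        have a4 : 0 ≤ Real.pi * uu d e x y θ ^ 2 := by positivity
        rw [abs_le]
        constructor <;> linarith
      have h7 : 0 ≤ F A + Real.pi * A ^ 2 := (abs_nonneg _).trans h6
      have h8 : √(α * x ^ d) ≤ √(uu d e x y θ) := Real.sqrt_le_sqrt h1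
      have h9 : 0 < √(α * x ^ d) := Real.sqrt_pos.2 h3
      exact div_le_div₀ h7 h6 h9 h8
    exact mul_le_mul (rt_le hαβ hθ) h5 (abs_nonneg _) (by linarith)

end Pool.Agent.H471.CR
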