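import Pool.Agent.H471.CR.Fac

set_option autoImplicit false

/-!
Mean values of trigonometric polynomials over the parameters.
-/

namespace Pool.Agent.H471.CR

open Complex MeasureTheory Set
open Pool.Agent.H471.QP

lemma coef_pow {Y m : ℕ} (hm : m ∈ Finset.Icc 1 (Y ^ 2)) {κ Kc z : ℝ} (hκ : 0 < κ) (hK : 0 ≤ Kc)
    (h : z ≤ Kc * (m : ℝ) ^ (-(3 / 4) + κ)) : z ≤ Kc * (Y : ℝ) ^ (2 * κ) * (m : ℝ) ^ (-(3 / 4) : ℝ) := by
  rw [Finset.mem_Icc] at hm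
  have hm0 : (0:ℝ) < m := by exact_mod_cast hm.1
  have h1 : (m : ℝ) ≤ (Y : ℝ) ^ 2 := by exact_mod_cast hm.2
  have h2 : (m : ℝ) ^ κ ≤ (Y : ℝ) ^ (2 * κ) := by
    calc (m : ℝ) ^ κ ≤ ((Y : ℝ) ^ 2) ^ κ := Real.rpow_le_rpow hm0.le h1 hκ.le
      _ = _ := by
        rw [← Real.rpow_natCast, ← Real.rpow_mul (Nat.cast_nonneg Y)]
        congr 1
  refine h.trans ?_
  rw [Real.rpow_add hm0]
  calc Kc * ((m : ℝ) ^ (-(3 / 4) : ℝ) * (m : ℝ) ^ κ) ≤ Kc * ((m : ℝ) ^ (-(3 / 4) : ℝ) * (Y : ℝ) ^ (2 * κ)) := by gcongr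
    _ = _ := by ring

lemma conj_ZZ (S : Finset ℕ) (c : ℕ → ℂ) (u : ℝ) :
    (starRingEnd ℂ) (ZZ S c u) = ∑ m ∈ S, (starRingEnd ℂ) (c m) * ex ((-1) * (u * lm m)) := by
  unfold ZZ
  rw [map_sum]
  refine Finset.sum_congr rfl fun m _ => ?_
  rw [map_mul, conj_ex]
  congr 2
  ring

lemma eta_int {α β γ : ℝ} (F : ℝ × ℝ → ℂ) (hF : Continuous F) :
    IntegrableOn (fun θ : ℝ × ℝ => (eta α β θ.1 : ℂ) * F θ) (bx α β γ) := by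
  apply ContinuousOn.integrableOn_compact (bx_cpt α β γ)
  apply Continuous.continuousOn
  apply Continuous.mul _ hF
  unfold QP.eta
  fun_prop

/-- the mean square -/
lemma diagZ (α β γ : ℝ) (hαβ : α ≤ β) (hγ : 0 ≤ γ) : ∃ C : ℝ, 0 < C ∧
    ∀ (d e : ℕ) (x y Kc κ : ℝ) (Y : ℕ) (c : ℕ → ℂ), 1 ≤ x → 0 < κ → 0 ≤ Kc → 1 ≤ Y →
    (∀ m ∈ Finset.Icc 1 (Y ^ 2), ‖c m‖ ≤ Kc * (m : ℝ) ^ (-(3 / 4) + κ)) →
    ∫ θ in bx α β γ, eta α β θ.1 * ‖ZZ (Finset.Icc 1 (Y ^ 2)) c (uu d e x y θ)‖ ^ 2 ≤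
      C * (∑ m ∈ Finset.Icc 1 (Y ^ 2), ‖c m‖ ^ 2 +
        Kc ^ 2 * (Y : ℝ) ^ (4 * κ) * (1 + Real.log (2 * (Y : ℝ) ^ 2)) ^ 2 / x ^ d) := by
  obtain ⟨C0, hC0, hint⟩ := int_bx α β γ hαβ hγ
  refine ⟨48 * (C0 * γ) + 1, by positivity, ?_⟩
  intro d e x y Kc κ Y c hx hκ hKc hY hc
  have hx0 : 0 < x := by linarith
  have hxd : 0 < x ^ d := by positivity
  set S := Finset.Icc 1 (Y ^ 2) with hS
  have h1 := exp_s (α := α) (β := β) (γ := γ) (d := d) (e := e) (x := x) (y := x) (y1 := y) (y2 := y) S S c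
    (fun m => (starRingEnd ℂ) (c m)) (-1)
    (B := fun m1 m2 => C0 * d2 (x ^ d * lm m1 + (-1) * (x ^ d * lm m2)) * γ) (by
      intro m1 _ m2 _
      exact (hint _ _).1)
  have e1 : ((∫ θ in bx α β γ, eta α β θ.1 * ‖ZZ S c (uu d e x y θ)‖ ^ 2 : ℝ) : ℂ) =
      ∫ θ in bx α β γ, (eta α β θ.1 : ℂ) * (ZZ S c (uu d e x y θ) *
        ∑ m ∈ S, (starRingEnd ℂ) (c m) * ex ((-1) * (uu d e x y θ * lm m))) := by
    rw [← integral_complex_ofReal]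
    congr 1
    funext θ
    rw [← conj_ZZ, Complex.mul_conj, Complex.normSq_eq_norm_sq]
    push_cast
    ring
  have h2 : ∫ θ in bx α β γ, eta α β θ.1 * ‖ZZ S c (uu d e x y θ)‖ ^ 2 ≤
      ‖∫ θ in bx α β γ, (eta α β θ.1 : ℂ) * (ZZ S c (uu d e x y θ) *
        ∑ m ∈ S, (starRingEnd ℂ) (c m) * ex ((-1) * (uu d e x y θ * lm m)))‖ := by
    rw [← e1, Complex.norm_real]
    exact Real.le_norm_self _
  refine h2.trans (h1.trans ?_)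
  -- the sums
  obtain ⟨A, hA⟩ : ∃ A : ℝ, A = Kc ^ 2 * (Y : ℝ) ^ (4 * κ) := ⟨_, rfl⟩
  have hA0 : 0 ≤ A := by rw [hA]; positivity
  have hcc : ∀ m1 ∈ S, ∀ m2 ∈ S, ‖c m1‖ * ‖c m2‖ ≤ A * ((m1 : ℝ) ^ (-(3 / 4) : ℝ) * (m2 : ℝ) ^ (-(3 / 4) : ℝ)) := by
    intro m1 hm1 m2 hm2
    have a1 := coef_pow hm1 hκ hKc (hc m1 hm1)
    have a2 := coef_pow hm2 hκ hKc (hc m2 hm2)
    have a3 : (Y : ℝ) ^ (4 * κ) = (Y : ℝ) ^ (2 * κ) * (Y : ℝ) ^ (2 * κ) := by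
      rw [← Real.rpow_add (by exact_mod_cast hY)]
      congr 1
      ring
    calc ‖c m1‖ * ‖c m2‖ ≤ (Kc * (Y : ℝ) ^ (2 * κ) * (m1 : ℝ) ^ (-(3 / 4) : ℝ)) *
          (Kc * (Y : ℝ) ^ (2 * κ) * (m2 : ℝ) ^ (-(3 / 4) : ℝ)) := mul_le_mul a1 a2 (norm_nonneg _) (by positivity)
      _ = _ := by rw [hA, a3]; ring
  have hd2 : ∀ m1 ∈ S, ∀ m2 ∈ S, m2 ≠ m1 → d2 (x ^ d * lm m1 + (-1) * (x ^ d * lm m2)) ≤
      (√(m1 : ℝ) + √(m2 : ℝ)) * |(m2 : ℝ) - m1|⁻¹ / x ^ d := by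
    intro m1 hm1 m2 hm2 hne
    rw [hS, Finset.mem_Icc] at hm1 hm2
    have b1 : (0:ℝ) < m1 := by exact_mod_cast hm1.1
    have b2 : (0:ℝ) < m2 := by exact_mod_cast hm2.1
    have hsum : 0 < √(m1 : ℝ) + √(m2 : ℝ) := by positivity
    have hne' : (m2 : ℝ) - m1 ≠ 0 := by
      rw [sub_ne_zero]
      exact_mod_cast hne
    have e2 : (√(m1 : ℝ) - √(m2 : ℝ)) * (√(m1 : ℝ) + √(m2 : ℝ)) = m1 - m2 := by
      have c1 := Real.mul_self_sqrt b1.le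
      have c2 := Real.mul_self_sqrt b2.le
      nlinarith
    have e3 : |√(m1 : ℝ) - √(m2 : ℝ)| * (√(m1 : ℝ) + √(m2 : ℝ)) = |(m2 : ℝ) - m1| := by
      rw [abs_sub_comm (m2 : ℝ) m1, ← e2, abs_mul, abs_of_pos hsum]
    obtain ⟨X, hX⟩ : ∃ X : ℝ, X = x ^ d * lm m1 + (-1) * (x ^ d * lm m2) := ⟨_, rfl⟩
    have e4 : |X| * (√(m1 : ℝ) + √(m2 : ℝ)) = x ^ d * (2 * Real.pi) * |(m2 : ℝ) - m1| := by
      have : X = x ^ d * (2 * Real.pi) * (√(m1 : ℝ) - √(m2 : ℝ)) := by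
        rw [hX]
        unfold lm
        ring
      have hpos : 0 < x ^ d * (2 * Real.pi) := by positivity
      rw [this, abs_mul, abs_of_pos hpos, mul_assoc, e3]
    have hX0 : 0 < |X| := by
      have : 0 < |X| * (√(m1 : ℝ) + √(m2 : ℝ)) := by rw [e4]; positivity
      exact pos_of_mul_pos_left this hsum.le
    rw [← hX]
    have h3 : d2 X ≤ |X|⁻¹ := by
      unfold d2
      apply inv_anti₀ hX0
      have : X ^ 2 = |X| ^ 2 := (sq_abs X).symm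
      rw [this]
      nlinarith [sq_nonneg (|X| - 1)]
    refine h3.trans ?_
    have hd : 0 < |(m2 : ℝ) - m1| := abs_pos.2 hne'
    rw [le_div_iff₀ hxd, inv_mul_le_iff₀ hX0]
    have h5 : |X| * ((√(m1 : ℝ) + √(m2 : ℝ)) * |(m2 : ℝ) - m1|⁻¹) = x ^ d * (2 * Real.pi) := by
      rw [← mul_assoc, e4]
      field_simp
    rw [h5]
    have := Real.pi_gt_three
    nlinarith
  have hterm : ∀ m1 ∈ S, ∑ m2 ∈ S, ‖c m1‖ * ‖(starRingEnd ℂ) (c m2)‖ *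
      (C0 * d2 (x ^ d * lm m1 + (-1) * (x ^ d * lm m2)) * γ) ≤ C0 * γ * ‖c m1‖ ^ 2 +
      C0 * γ * A / x ^ d * ∑ m2 ∈ S.filter (fun m2 => m2 ≠ m1), (m1 : ℝ) ^ (-(3 / 4) : ℝ) * (m2 : ℝ) ^ (-(3 / 4) : ℝ) *
        ((√(m1 : ℝ) + √(m2 : ℝ)) * |(m2 : ℝ) - m1|⁻¹) := by
    intro m1 hm1
    rw [← Finset.sum_filter_add_sum_filter_not S (fun m2 => m2 ≠ m1), add_comm]
    simp only [ne_eq, Decidable.not_not, RCLike.norm_conj]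
    rw [Finset.filter_eq' S m1, if_pos hm1, Finset.sum_singleton]
    apply add_le_add
    · have : x ^ d * lm m1 + (-1) * (x ^ d * lm m1) = 0 := by ring
      rw [this]
      have h6 : d2 0 = 1 := by unfold d2; norm_num
      rw [h6]
      apply le_of_eq
      ring
    · rw [Finset.mul_sum]
      refine Finset.sum_le_sum fun m2 hm2 => ?_
      rw [Finset.mem_filter] at hm2
      have k1 := hcc m1 hm1 m2 hm2.1
      have k2 := hd2 m1 hm1 m2 hm2.1 hm2.2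
      have k3 := (d2_pos (x ^ d * lm m1 + (-1) * (x ^ d * lm m2))).le
      calc ‖c m1‖ * ‖c m2‖ * (C0 * d2 (x ^ d * lm m1 + (-1) * (x ^ d * lm m2)) * γ) ≤
            (A * ((m1 : ℝ) ^ (-(3 / 4) : ℝ) * (m2 : ℝ) ^ (-(3 / 4) : ℝ))) *
              (C0 * ((√(m1 : ℝ) + √(m2 : ℝ)) * |(m2 : ℝ) - m1|⁻¹ / x ^ d) * γ) := by gcongr
        _ = _ := by ring
  refine (Finset.sum_le_sum hterm).trans ?_
  rw [Finset.sum_add_distrib, ← Finset.mul_sum, ← Finset.mul_sum]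
  have hp := sum_pairs (Y ^ 2) (Nat.one_le_pow _ _ hY)
  rw [← hS] at hp
  push_cast at hp
  have hs0 : 0 ≤ ∑ m ∈ S, ‖c m‖ ^ 2 := Finset.sum_nonneg fun _ _ => by positivity
  have hl0 : 0 ≤ (1 + Real.log (2 * (Y : ℝ) ^ 2)) ^ 2 := sq_nonneg _
  have k4 : C0 * γ * A / x ^ d * ∑ m1 ∈ S, ∑ m2 ∈ S.filter (fun m2 => m2 ≠ m1),
      (m1 : ℝ) ^ (-(3 / 4) : ℝ) * (m2 : ℝ) ^ (-(3 / 4) : ℝ) * ((√(m1 : ℝ) + √(m2 : ℝ)) * |(m2 : ℝ) - m1|⁻¹) ≤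
      C0 * γ * A / x ^ d * (48 * (1 + Real.log (2 * (Y : ℝ) ^ 2)) ^ 2) := by
    gcongr
  have k5 : 0 ≤ A * (1 + Real.log (2 * (Y : ℝ) ^ 2)) ^ 2 / x ^ d := by positivity
  have k6 : 0 ≤ C0 * γ * ∑ m ∈ S, ‖c m‖ ^ 2 := by positivity
  have e5 : C0 * γ * A / x ^ d * (48 * (1 + Real.log (2 * (Y : ℝ) ^ 2)) ^ 2) =
      48 * (C0 * γ) * (A * (1 + Real.log (2 * (Y : ℝ) ^ 2)) ^ 2 / x ^ d) := by ring
  have e6 : (48 * (C0 * γ) + 1) * (∑ m ∈ S, ‖c m‖ ^ 2 + A * (1 + Real.log (2 * (Y : ℝ) ^ 2)) ^ 2 / x ^ d) =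
      48 * (C0 * γ * ∑ m ∈ S, ‖c m‖ ^ 2) + ∑ m ∈ S, ‖c m‖ ^ 2 +
      48 * (C0 * γ) * (A * (1 + Real.log (2 * (Y : ℝ) ^ 2)) ^ 2 / x ^ d) +
      A * (1 + Real.log (2 * (Y : ℝ) ^ 2)) ^ 2 / x ^ d := by ring
  rw [← hA, e6]
  linarith

/-- the correlation -/
lemma offZ (α β γ : ℝ) (hαβ : α ≤ β) (hγ : 0 ≤ γ) : ∃ C : ℝ, 0 < C ∧
    ∀ (d e : ℕ) (x y y1 y2 Kc κ : ℝ) (Y1 Y2 : ℕ) (c1 c2 : ℕ → ℂ), 1 ≤ e → e < d → 1 ≤ x → x < y → 0 < κ → 0 ≤ Kc →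
    1 ≤ Y1 → 1 ≤ Y2 →
    (∀ m ∈ Finset.Icc 1 (Y1 ^ 2), ‖c1 m‖ ≤ Kc * (m : ℝ) ^ (-(3 / 4) + κ)) →
    (∀ m ∈ Finset.Icc 1 (Y2 ^ 2), ‖c2 m‖ ≤ Kc * (m : ℝ) ^ (-(3 / 4) + κ)) →
    ‖∫ θ in bx α β γ, (eta α β θ.1 : ℂ) * (((ZZ (Finset.Icc 1 (Y1 ^ 2)) c1 (uu d e x y1 θ)).re : ℂ) *
      ((ZZ (Finset.Icc 1 (Y2 ^ 2)) c2 (uu d e y y2 θ)).re : ℂ))‖ ≤
      C * (Kc ^ 2 * ((Y1 : ℝ) * Y2) ^ (2 * κ) * (1 + Real.log (Y1 + y ^ d * Y2 + 1))) * (y - x)⁻¹ := by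
  obtain ⟨C0, hC0, hint⟩ := int_bx α β γ hαβ hγ
  obtain ⟨Cs, hCs, hconv⟩ := sum_conv
  refine ⟨C0 * (8 + 4 * γ) * 36 * Cs, by positivity, ?_⟩
  intro d e x y y1 y2 Kc κ Y1 Y2 c1 c2 he hed hx hxy hκ hKc hY1 hY2 hc1 hc2
  have hx0 : 0 < x := by linarith
  have hy0 : 0 < y := by linarith
  have hxd : 1 ≤ x ^ d := one_le_pow₀ hx
  have hyx : 0 < y - x := by linarith
  set S1 := Finset.Icc 1 (Y1 ^ 2) with hS1
  set S2 := Finset.Icc 1 (Y2 ^ 2) with hS2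
  -- the common bound
  obtain ⟨Bd, hBd⟩ : ∃ Bd : ℝ, Bd = C0 * (8 + 4 * γ) * 36 * Cs *
    (Kc ^ 2 * ((Y1 : ℝ) * Y2) ^ (2 * κ) * (1 + Real.log (Y1 + y ^ d * Y2 + 1))) * (y - x)⁻¹ := ⟨_, rfl⟩
  rw [← hBd]
  have hY1' : (1:ℝ) ≤ Y1 := by exact_mod_cast hY1
  have hY2' : (1:ℝ) ≤ Y2 := by exact_mod_cast hY2
  have hlog : 0 ≤ Real.log (Y1 + y ^ d * Y2 + 1) := Real.log_nonneg (by
    have : 0 ≤ y ^ d * (Y2 : ℝ) := by positivity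
    linarith)
  have main : ∀ (s : ℝ), (s = 1 ∨ s = -1) → ∀ c2' : ℕ → ℂ, (∀ m ∈ S2, ‖c2' m‖ ≤ Kc * (m : ℝ) ^ (-(3 / 4) + κ)) →
      ‖∫ θ in bx α β γ, (eta α β θ.1 : ℂ) * (ZZ S1 c1 (uu d e x y1 θ) *
      ∑ m ∈ S2, c2' m * ex (s * (uu d e y y2 θ * lm m)))‖ ≤ Bd := by
    intro s hs c2' hc2'
    have h1 := exp_s (α := α) (β := β) (γ := γ) (d := d) (e := e) (x := x) (y := y) (y1 := y1) (y2 := y2) S1 S2 c1
      c2' s (B := fun m1 m2 => C0 * (8 + 4 * γ) * d1 (x ^ d * lm m1 - y ^ d * lm m2) * (lm m2 * (y - x))⁻¹) (by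
        intro m1 hm1 m2 hm2
        rw [hS1, Finset.mem_Icc] at hm1
        rw [hS2, Finset.mem_Icc] at hm2
        have h2 := hint (x ^ d * lm m1 + s * (y ^ d * lm m2)) (x ^ e * lm m1 + s * (y ^ e * lm m2))
        exact arith hγ hx hxy he hed (by linarith [lm_ge hm1.1]) (lm_ge hm2.1) hC0.le s hs h2.1 h2.2)
    refine h1.trans ?_
    rw [Finset.sum_comm]
    have h3 : ∀ m2 ∈ S2, ∑ m1 ∈ S1, ‖c1 m1‖ * ‖c2' m2‖ *
        (C0 * (8 + 4 * γ) * d1 (x ^ d * lm m1 - y ^ d * lm m2) * (lm m2 * (y - x))⁻¹) ≤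
        (C0 * (8 + 4 * γ) * 36 * (Kc ^ 2 * ((Y1 : ℝ) * Y2) ^ (2 * κ) * (1 + Real.log (Y1 + y ^ d * Y2 + 1))) *
          (y - x)⁻¹) * (m2 : ℝ) ^ (-(9 / 8) : ℝ) := by
      intro m2 hm2
      have a2 := coef_pow hm2 hκ hKc (hc2' m2 hm2)
      have hm2' := hm2
      rw [hS2, Finset.mem_Icc] at hm2
      have b2 : (0:ℝ) < m2 := by exact_mod_cast hm2.1
      have b2' : (1:ℝ) ≤ m2 := by exact_mod_cast hm2.1
      obtain ⟨sv, hsv⟩ : ∃ sv : ℝ, sv = y ^ d * √(m2 : ℝ) / x ^ d := ⟨_, rfl⟩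
      have hsv0 : 0 ≤ sv := by rw [hsv]; positivity
      have hsv1 : sv ≤ y ^ d * Y2 := by
        rw [hsv, div_le_iff₀ (by positivity)]
        have : √(m2 : ℝ) ≤ Y2 := by
          rw [Real.sqrt_le_left (by positivity)]
          exact_mod_cast hm2.2
        calc y ^ d * √(m2 : ℝ) ≤ y ^ d * Y2 * 1 := by rw [mul_one]; gcongr
          _ ≤ _ := by gcongr
      have hd1 : ∀ m1 : ℕ, d1 (x ^ d * lm m1 - y ^ d * lm m2) ≤ d1 (√(m1 : ℝ) - sv) := by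
        intro m1
        apply d1_anti
        have e1 : x ^ d * lm m1 - y ^ d * lm m2 = (2 * Real.pi * x ^ d) * (√(m1 : ℝ) - sv) := by
          rw [hsv]
          unfold lm
          field_simp
        have hpos : 0 < 2 * Real.pi * x ^ d := by positivity
        rw [e1, abs_mul, abs_of_pos hpos]
        have hpi := Real.pi_gt_three
        have : 1 ≤ 2 * Real.pi * x ^ d := by nlinarith
        exact le_mul_of_one_le_left (abs_nonneg _) this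
      have h4 : ∑ m1 ∈ S1, ‖c1 m1‖ * d1 (x ^ d * lm m1 - y ^ d * lm m2) ≤
          Kc * (Y1 : ℝ) ^ (2 * κ) * (36 * (1 + Real.log (Y1 + y ^ d * Y2 + 1))) := by
        calc ∑ m1 ∈ S1, ‖c1 m1‖ * d1 (x ^ d * lm m1 - y ^ d * lm m2) ≤
              ∑ m1 ∈ S1, Kc * (Y1 : ℝ) ^ (2 * κ) * ((m1 : ℝ) ^ (-(3 / 4) : ℝ) * d1 (√(m1 : ℝ) - sv)) := by
              refine Finset.sum_le_sum fun m1 hm1 => ?_
              have a1 := coef_pow hm1 hκ hKc (hc1 m1 hm1)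
              calc ‖c1 m1‖ * d1 (x ^ d * lm m1 - y ^ d * lm m2) ≤
                    (Kc * (Y1 : ℝ) ^ (2 * κ) * (m1 : ℝ) ^ (-(3 / 4) : ℝ)) * d1 (√(m1 : ℝ) - sv) :=
                    mul_le_mul a1 (hd1 m1) (d1_pos _).le (by positivity)
                _ = _ := by ring
          _ = Kc * (Y1 : ℝ) ^ (2 * κ) * ∑ m1 ∈ S1, (m1 : ℝ) ^ (-(3 / 4) : ℝ) * d1 (√(m1 : ℝ) - sv) := by
              rw [Finset.mul_sum]
          _ ≤ Kc * (Y1 : ℝ) ^ (2 * κ) * (36 * (1 + Real.log (Y1 + y ^ d * Y2 + 1))) := by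
              have h5 := sum_L1 Y1 hY1 hsv0
              have h6 : Real.log (Y1 + sv + 1) ≤ Real.log (Y1 + y ^ d * Y2 + 1) :=
                Real.log_le_log (by linarith) (by linarith)
              have h7 : ∑ m1 ∈ S1, (m1 : ℝ) ^ (-(3 / 4) : ℝ) * d1 (√(m1 : ℝ) - sv) ≤
                  36 * (1 + Real.log (Y1 + y ^ d * Y2 + 1)) := by
                refine h5.trans ?_
                gcongr
              gcongr
      have h8 : ‖c2' m2‖ * (lm m2)⁻¹ ≤ Kc * (Y2 : ℝ) ^ (2 * κ) * (m2 : ℝ) ^ (-(9 / 8) : ℝ) := by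
        have h9 : (lm m2)⁻¹ ≤ (m2 : ℝ) ^ (-(3 / 8) : ℝ) := by
          unfold lm
          have : (m2 : ℝ) ^ (3 / 8 : ℝ) ≤ 2 * Real.pi * √(m2 : ℝ) := by
            have h10 : (m2 : ℝ) ^ (3 / 8 : ℝ) ≤ √(m2 : ℝ) := by
              rw [Real.sqrt_eq_rpow]
              exact Real.rpow_le_rpow_of_exponent_le b2' (by norm_num)
            have hpi := Real.pi_gt_three
            have h11 := Real.sqrt_nonneg (m2 : ℝ)
            nlinarith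
          rw [Real.rpow_neg b2.le]
          exact inv_anti₀ (by positivity) this
        calc ‖c2' m2‖ * (lm m2)⁻¹ ≤ (Kc * (Y2 : ℝ) ^ (2 * κ) * (m2 : ℝ) ^ (-(3 / 4) : ℝ)) * (m2 : ℝ) ^ (-(3 / 8) : ℝ) :=
              mul_le_mul a2 h9 (by have := lm_ge hm2.1; positivity) (by positivity)
          _ = _ := by
            rw [mul_assoc, ← Real.rpow_add b2]
            norm_num
      have e2 : ∑ m1 ∈ S1, ‖c1 m1‖ * ‖c2' m2‖ *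
          (C0 * (8 + 4 * γ) * d1 (x ^ d * lm m1 - y ^ d * lm m2) * (lm m2 * (y - x))⁻¹) =
          C0 * (8 + 4 * γ) * (y - x)⁻¹ * ((∑ m1 ∈ S1, ‖c1 m1‖ * d1 (x ^ d * lm m1 - y ^ d * lm m2)) *
            (‖c2' m2‖ * (lm m2)⁻¹)) := by
        rw [Finset.sum_mul, Finset.mul_sum]
        refine Finset.sum_congr rfl fun m1 _ => ?_
        rw [mul_inv]
        ring
      rw [e2]
      have h12 : 0 ≤ ‖c2' m2‖ * (lm m2)⁻¹ := by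
        have := lm_ge hm2.1
        positivity
      have hyxi : 0 ≤ (y - x)⁻¹ := by positivity
      calc C0 * (8 + 4 * γ) * (y - x)⁻¹ * ((∑ m1 ∈ S1, ‖c1 m1‖ * d1 (x ^ d * lm m1 - y ^ d * lm m2)) *
            (‖c2' m2‖ * (lm m2)⁻¹)) ≤ C0 * (8 + 4 * γ) * (y - x)⁻¹ *
            ((Kc * (Y1 : ℝ) ^ (2 * κ) * (36 * (1 + Real.log (Y1 + y ^ d * Y2 + 1)))) *
            (Kc * (Y2 : ℝ) ^ (2 * κ) * (m2 : ℝ) ^ (-(9 / 8) : ℝ))) := by gcongr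
        _ = _ := by
          rw [Real.mul_rpow (by positivity) (by positivity)]
          ring
    refine (Finset.sum_le_sum h3).trans ?_
    rw [← Finset.mul_sum, hBd]
    have h13 := hconv (Y2 ^ 2)
    rw [← hS2] at h13
    have hyxi : 0 ≤ (y - x)⁻¹ := by positivity
    calc (C0 * (8 + 4 * γ) * 36 * (Kc ^ 2 * ((Y1 : ℝ) * Y2) ^ (2 * κ) * (1 + Real.log (Y1 + y ^ d * Y2 + 1))) *
          (y - x)⁻¹) * ∑ m2 ∈ S2, (m2 : ℝ) ^ (-(9 / 8) : ℝ) ≤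
          (C0 * (8 + 4 * γ) * 36 * (Kc ^ 2 * ((Y1 : ℝ) * Y2) ^ (2 * κ) * (1 + Real.log (Y1 + y ^ d * Y2 + 1))) *
          (y - x)⁻¹) * Cs := by gcongr
      _ = _ := by ring
  have hp := main 1 (Or.inl rfl) c2 hc2
  have hm := main (-1) (Or.inr rfl) (fun m => (starRingEnd ℂ) (c2 m)) (by
    intro m hm
    rw [RCLike.norm_conj]
    exact hc2 m hm)
  -- real parts
  obtain ⟨P, hP⟩ : ∃ P : ℝ × ℝ → ℂ, P = fun θ => ZZ S1 c1 (uu d e x y1 θ) := ⟨_, rfl⟩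
  obtain ⟨Q, hQ⟩ : ∃ Q : ℝ × ℝ → ℂ, Q = fun θ => ZZ S2 c2 (uu d e y y2 θ) := ⟨_, rfl⟩
  have hPc : Continuous P := by rw [hP]; exact (ZZ_cont _ _).comp (uu_cont d e x y1)
  have hQc : Continuous Q := by rw [hQ]; exact (ZZ_cont _ _).comp (uu_cont d e y y2)
  have hp' : ‖∫ θ in bx α β γ, (eta α β θ.1 : ℂ) * (P θ * Q θ)‖ ≤ Bd := by
    have : (fun θ : ℝ × ℝ => (eta α β θ.1 : ℂ) * (P θ * Q θ)) = fun θ => (eta α β θ.1 : ℂ) *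
        (ZZ S1 c1 (uu d e x y1 θ) * ∑ m ∈ S2, c2 m * ex (1 * (uu d e y y2 θ * lm m))) := by
      funext θ
      rw [hP, hQ]
      unfold ZZ
      simp only [one_mul]
    rw [this]
    exact hp
  have hm' : ‖∫ θ in bx α β γ, (eta α β θ.1 : ℂ) * (P θ * (starRingEnd ℂ) (Q θ))‖ ≤ Bd := by
    have : (fun θ : ℝ × ℝ => (eta α β θ.1 : ℂ) * (P θ * (starRingEnd ℂ) (Q θ))) = fun θ => (eta α β θ.1 : ℂ) *
        (ZZ S1 c1 (uu d e x y1 θ) * ∑ m ∈ S2, (starRingEnd ℂ) (c2 m) * ex ((-1) * (uu d e y y2 θ * lm m))) := by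
      funext θ
      rw [hP, hQ]
      simp only []
      rw [conj_ZZ]
    rw [this]
    exact hm
  have i1 := eta_int (α := α) (β := β) (γ := γ) (fun θ => P θ * Q θ) (hPc.mul hQc)
  have i2 := eta_int (α := α) (β := β) (γ := γ) (fun θ => P θ * (starRingEnd ℂ) (Q θ))
    (hPc.mul (RCLike.continuous_conj.comp hQc))
  have e3 : ∫ θ in bx α β γ, (eta α β θ.1 : ℂ) * (((ZZ S1 c1 (uu d e x y1 θ)).re : ℂ) *
      ((ZZ S2 c2 (uu d e y y2 θ)).re : ℂ)) =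
      (((∫ θ in bx α β γ, (eta α β θ.1 : ℂ) * (P θ * Q θ)).re / 2 +
        (∫ θ in bx α β γ, (eta α β θ.1 : ℂ) * (P θ * (starRingEnd ℂ) (Q θ))).re / 2 : ℝ) : ℂ) := by
    have r1 : (∫ θ in bx α β γ, (eta α β θ.1 : ℂ) * (P θ * Q θ)).re =
        ∫ θ in bx α β γ, ((eta α β θ.1 : ℂ) * (P θ * Q θ)).re := (integral_re i1).symm
    have r2 : (∫ θ in bx α β γ, (eta α β θ.1 : ℂ) * (P θ * (starRingEnd ℂ) (Q θ))).re =
        ∫ θ in bx α β γ, ((eta α β θ.1 : ℂ) * (P θ * (starRingEnd ℂ) (Q θ))).re := (integral_re i2).symm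
    have j1 : Integrable (fun θ => ((eta α β θ.1 : ℂ) * (P θ * Q θ)).re / 2) (volume.restrict (bx α β γ)) :=
      i1.re.div_const 2
    have j2 : Integrable (fun θ => ((eta α β θ.1 : ℂ) * (P θ * (starRingEnd ℂ) (Q θ))).re / 2)
      (volume.restrict (bx α β γ)) := i2.re.div_const 2
    rw [r1, r2, ← integral_div, ← integral_div, ← integral_add j1 j2, ← integral_complex_ofReal]
    congr 1
    funext θ
    simp only [hP, hQ]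
    rw [Complex.re_ofReal_mul, Complex.re_ofReal_mul, Complex.mul_re, Complex.mul_re, Complex.conj_re, Complex.conj_im]
    push_cast
    ring
  rw [e3, Complex.norm_real, Real.norm_eq_abs]
  have a1 := (Complex.abs_re_le_norm _).trans hp'
  have a2 := (Complex.abs_re_le_norm _).trans hm'
  refine (abs_add_le _ _).trans ?_
  rw [abs_div, abs_div, abs_two]
  linarith

end Pool.Agent.H471.CR
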