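import Pool.Agent.H471.CR.Fac2
import Pool.Graph.R_seed8.H452R2.Win.V8

set_option autoImplicit false

/-!
The facts on one factor.
-/

namespace Pool.Agent.H471.CR

open Complex MeasureTheory Set
open Pool.Agent.H471.QP
open Pool.Agent.H383 Pool.Agent.H383.Gauss Pool.Agent.H383.Circ Pool.Agent.H383.Gen

/-- the smoothing scale -/
noncomputable def dl (d : ℕ) (x : ℝ) : ℝ := 1 / 2 * x ^ (-(((d : ℝ) + 1) / 2))
/-- the length -/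
noncomputable def YY (d : ℕ) (x : ℝ) : ℕ := ⌈x ^ (d + 1)⌉₊

lemma dl_pos {d : ℕ} {x : ℝ} (hx : 1 ≤ x) : 0 < dl d x := by
  unfold dl
  have : 0 < x := by linarith
  positivity

lemma dl_le {d : ℕ} {x : ℝ} (hx : 1 ≤ x) : dl d x ≤ 1 / 2 := by
  unfold dl
  have : x ^ (-(((d : ℝ) + 1) / 2)) ≤ 1 := Real.rpow_le_one_of_one_le_of_nonpos hx (by
    have : (0:ℝ) ≤ d := Nat.cast_nonneg d
    linarith)
  linarith

lemma YY_lb (d : ℕ) (x : ℝ) : x ^ (d + 1) ≤ YY d x := Nat.le_ceil _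

lemma YY_ub {d : ℕ} {x : ℝ} (hx : 1 ≤ x) : (YY d x : ℝ) ≤ 2 * x ^ (d + 1) := by
  have h1 : 1 ≤ x ^ (d + 1) := one_le_pow₀ hx
  have h2 := Nat.ceil_lt_add_one (a := x ^ (d + 1)) (by positivity)
  unfold YY
  linarith

lemma YY_one {d : ℕ} {x : ℝ} (hx : 1 ≤ x) : 1 ≤ YY d x := by
  have h1 : 1 ≤ x ^ (d + 1) := one_le_pow₀ hx
  have h2 := YY_lb d x
  have h3 : (1:ℝ) ≤ YY d x := by linarith
  exact_mod_cast h3

/-- the logarithmic factors -/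
lemma YL {κ : ℝ} (hκ : 0 < κ) : ∃ C : ℝ, 0 < C ∧ ∀ (d : ℕ) (x : ℝ), 1 ≤ x →
    (YY d x : ℝ) ^ (4 * κ) * (1 + Real.log (2 * (YY d x : ℝ) ^ 2)) ^ 2 ≤ C ^ (d + 1) * x ^ (8 * κ * ((d : ℝ) + 1)) := by
  refine ⟨1 + (1 + 1 / κ) ^ 2 * (2 ^ κ) ^ 2 * 2 ^ (8 * κ), by positivity, fun d x hx => ?_⟩
  have hx0 : 0 < x := by linarith
  have hY1 : (1:ℝ) ≤ YY d x := by exact_mod_cast YY_one (d := d) hx
  have hY0 : (0:ℝ) < YY d x := by linarith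
  have hz : (1:ℝ) ≤ 2 * (YY d x : ℝ) ^ 2 := by nlinarith
  have h1 := one_log hκ hz
  have hl : 0 ≤ Real.log (2 * (YY d x : ℝ) ^ 2) := Real.log_nonneg hz
  have h2 : (1 + Real.log (2 * (YY d x : ℝ) ^ 2)) ^ 2 ≤ ((1 + 1 / κ) * (2 * (YY d x : ℝ) ^ 2) ^ κ) ^ 2 := by
    gcongr
  have e1 : ((1 + 1 / κ) * (2 * (YY d x : ℝ) ^ 2) ^ κ) ^ 2 = (1 + 1 / κ) ^ 2 * (2 ^ κ) ^ 2 * (YY d x : ℝ) ^ (4 * κ) := by
    rw [Real.mul_rpow (by norm_num) (by positivity), ← Real.rpow_natCast (YY d x : ℝ) 2, ← Real.rpow_mul hY0.le,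
      mul_pow, mul_pow, ← Real.rpow_natCast ((YY d x : ℝ) ^ _) 2, ← Real.rpow_mul hY0.le]
    have : ((2 : ℕ) : ℝ) * κ * ((2 : ℕ) : ℝ) = 4 * κ := by push_cast; ring
    rw [this]
    ring
  have h3 : (YY d x : ℝ) ^ (8 * κ) ≤ 2 ^ (8 * κ) * x ^ (8 * κ * ((d : ℝ) + 1)) := by
    calc (YY d x : ℝ) ^ (8 * κ) ≤ (2 * x ^ (d + 1)) ^ (8 * κ) := Real.rpow_le_rpow hY0.le (YY_ub hx) (by positivity)
      _ = _ := by
        rw [Real.mul_rpow (by norm_num) (by positivity), ← Real.rpow_natCast x (d + 1), ← Real.rpow_mul hx0.le]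
        congr 2
        push_cast
        ring
  obtain ⟨C, hC⟩ : ∃ C : ℝ, C = (1 + 1 / κ) ^ 2 * (2 ^ κ) ^ 2 * 2 ^ (8 * κ) := ⟨_, rfl⟩
  have hC0 : 0 ≤ C := by rw [hC]; positivity
  have h4 : C ≤ (1 + C) ^ (d + 1) := by
    have h5 : 1 + C ≤ (1 + C) ^ (d + 1) := le_self_pow₀ (by linarith) (by omega)
    linarith
  rw [← hC]
  calc (YY d x : ℝ) ^ (4 * κ) * (1 + Real.log (2 * (YY d x : ℝ) ^ 2)) ^ 2 ≤
        (YY d x : ℝ) ^ (4 * κ) * ((1 + 1 / κ) ^ 2 * (2 ^ κ) ^ 2 * (YY d x : ℝ) ^ (4 * κ)) := by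
        rw [← e1]
        gcongr
    _ = (1 + 1 / κ) ^ 2 * (2 ^ κ) ^ 2 * (YY d x : ℝ) ^ (8 * κ) := by
        have : (YY d x : ℝ) ^ (8 * κ) = (YY d x : ℝ) ^ (4 * κ) * (YY d x : ℝ) ^ (4 * κ) := by
          rw [← Real.rpow_add hY0]
          congr 1
          ring
        rw [this]
        ring
    _ ≤ (1 + 1 / κ) ^ 2 * (2 ^ κ) ^ 2 * (2 ^ (8 * κ) * x ^ (8 * κ * ((d : ℝ) + 1))) := by gcongr
    _ = C * x ^ (8 * κ * ((d : ℝ) + 1)) := by rw [hC]; ring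
    _ ≤ _ := by gcongr

/-- the pointwise error -/
lemma perr (α A : ℝ) (hα : 0 < α) (hA : 0 ≤ A) : ∃ C : ℝ, 0 < C ∧ ∀ (d : ℕ) (x R : ℝ), 2 ≤ d → 1 ≤ x →
    α * x ^ d ≤ R → R ≤ A * x ^ d →
    √R * dl d x + R⁻¹ + dl d x ^ (2 / 5 : ℝ) + dl d x ^ (-(3 / 2) : ℝ) * (YY d x : ℝ) ^ (-(24 / 25) : ℝ) ≤
      C * x ^ (-(1 / 2) : ℝ) := by
  refine ⟨√A + α⁻¹ + 1 + 4, by positivity, fun d x R hd hx h1 h2 => ?_⟩
  have hx0 : 0 < x := by linarith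
  have hd2 : (2:ℝ) ≤ d := by exact_mod_cast hd
  have hxd : 0 < x ^ d := by positivity
  have hR : 0 < R := lt_of_lt_of_le (by positivity) h1
  -- first
  have a1 : √R * dl d x ≤ √A * x ^ (-(1 / 2) : ℝ) := by
    have b1 : √R ≤ √A * x ^ ((d : ℝ) / 2) := by
      have b2 : √R ≤ √(A * x ^ d) := Real.sqrt_le_sqrt h2
      have b3 : √(A * x ^ d) = √A * x ^ ((d : ℝ) / 2) := by
        rw [Real.sqrt_mul hA, Real.sqrt_eq_rpow (x ^ d), ← Real.rpow_natCast x d, ← Real.rpow_mul hx0.le]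
        congr 2
        ring
      rwa [b3] at b2
    unfold dl
    calc √R * (1 / 2 * x ^ (-(((d : ℝ) + 1) / 2))) ≤ √A * x ^ ((d : ℝ) / 2) * (1 / 2 * x ^ (-(((d : ℝ) + 1) / 2))) := by
          gcongr
      _ = 1 / 2 * (√A * (x ^ ((d : ℝ) / 2) * x ^ (-(((d : ℝ) + 1) / 2)))) := by ring
      _ = 1 / 2 * (√A * x ^ (-(1 / 2) : ℝ)) := by
          rw [← Real.rpow_add hx0]
          congr 3
          ring
      _ ≤ _ := by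
          have : 0 ≤ √A * x ^ (-(1 / 2) : ℝ) := by positivity
          linarith
  have a2 : R⁻¹ ≤ α⁻¹ * x ^ (-(1 / 2) : ℝ) := by
    have b1 : R⁻¹ ≤ (α * x ^ d)⁻¹ := inv_anti₀ (by positivity) h1
    have b2 : (x ^ d)⁻¹ ≤ x ^ (-(1 / 2) : ℝ) := by
      rw [← Real.rpow_natCast, ← Real.rpow_neg hx0.le]
      exact Real.rpow_le_rpow_of_exponent_le hx (by linarith)
    refine b1.trans ?_
    rw [mul_inv]
    gcongr
  have a3 : dl d x ^ (2 / 5 : ℝ) ≤ 1 * x ^ (-(1 / 2) : ℝ) := by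
    unfold dl
    rw [Real.mul_rpow (by norm_num) (by positivity), ← Real.rpow_mul hx0.le]
    have b1 : (1 / 2 : ℝ) ^ (2 / 5 : ℝ) ≤ 1 := Real.rpow_le_one (by norm_num) (by norm_num) (by norm_num)
    have b2 : x ^ (-(((d : ℝ) + 1) / 2) * (2 / 5)) ≤ x ^ (-(1 / 2) : ℝ) :=
      Real.rpow_le_rpow_of_exponent_le hx (by linarith)
    exact mul_le_mul b1 b2 (by positivity) (by norm_num)
  have a4 : dl d x ^ (-(3 / 2) : ℝ) * (YY d x : ℝ) ^ (-(24 / 25) : ℝ) ≤ 4 * x ^ (-(1 / 2) : ℝ) := by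
    have b1 : (YY d x : ℝ) ^ (-(24 / 25) : ℝ) ≤ x ^ (-(24 / 25) * ((d : ℝ) + 1)) := by
      calc (YY d x : ℝ) ^ (-(24 / 25) : ℝ) ≤ (x ^ (d + 1)) ^ (-(24 / 25) : ℝ) :=
            Real.rpow_le_rpow_of_nonpos (by positivity) (YY_lb d x) (by norm_num)
        _ = _ := by
            rw [← Real.rpow_natCast, ← Real.rpow_mul hx0.le]
            congr 1
            push_cast
            ring
    have b2 : dl d x ^ (-(3 / 2) : ℝ) ≤ 4 * x ^ (3 / 4 * ((d : ℝ) + 1)) := by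
      unfold dl
      rw [Real.mul_rpow (by norm_num) (by positivity), ← Real.rpow_mul hx0.le]
      have c1 : (1 / 2 : ℝ) ^ (-(3 / 2) : ℝ) ≤ 4 := by
        rw [one_div, Real.inv_rpow (by norm_num), ← Real.rpow_neg (by norm_num), neg_neg]
        calc (2 : ℝ) ^ (3 / 2 : ℝ) ≤ 2 ^ (2 : ℝ) := Real.rpow_le_rpow_of_exponent_le (by norm_num) (by norm_num)
          _ = 4 := by norm_num
      have c2 : x ^ (-(((d : ℝ) + 1) / 2) * -(3 / 2)) = x ^ (3 / 4 * ((d : ℝ) + 1)) := by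
        congr 1
        ring
      rw [c2]
      gcongr
    calc dl d x ^ (-(3 / 2) : ℝ) * (YY d x : ℝ) ^ (-(24 / 25) : ℝ) ≤
          4 * x ^ (3 / 4 * ((d : ℝ) + 1)) * x ^ (-(24 / 25) * ((d : ℝ) + 1)) := by gcongr
      _ = 4 * x ^ (3 / 4 * ((d : ℝ) + 1) + -(24 / 25) * ((d : ℝ) + 1)) := by rw [mul_assoc, ← Real.rpow_add hx0]
      _ ≤ _ := by
          have : x ^ (3 / 4 * ((d : ℝ) + 1) + -(24 / 25) * ((d : ℝ) + 1)) ≤ x ^ (-(1 / 2) : ℝ) :=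
            Real.rpow_le_rpow_of_exponent_le hx (by linarith)
          linarith
  linarith

/-- sums of squares of the coefficients -/
lemma sq_sums {κ Kc : ℝ} (hκ : 0 < κ) (hK : 0 ≤ Kc) (hag : ∀ m : ℕ, 1 ≤ m → ag m ≤ Kc * (m : ℝ) ^ (-(3 / 4) + κ))
    (Y : ℕ) (hY : 1 ≤ Y) (δ τ : ℝ) (hδ : 0 < δ) :
    ∑ m ∈ Finset.Icc 1 (Y ^ 2), ‖cc δ m‖ ^ 2 ≤ Kc ^ 2 * ((Y : ℝ) ^ (4 * κ) * (1 + Real.log (2 * (Y : ℝ) ^ 2)) ^ 2) ∧
    ∑ m ∈ Finset.Icc 1 (Y ^ 2), ‖cd δ τ m‖ ^ 2 ≤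
      Kc ^ 2 * ((Y : ℝ) ^ (4 * κ) * (1 + Real.log (2 * (Y : ℝ) ^ 2)) ^ 2) * (16 * |τ|) := by
  have hY1 : (1:ℝ) ≤ Y := by exact_mod_cast hY
  have hYY : (1:ℝ) ≤ (Y : ℝ) ^ 2 := one_le_pow₀ hY1
  obtain ⟨L, hL⟩ : ∃ L : ℝ, L = Real.log (2 * (Y : ℝ) ^ 2) := ⟨_, rfl⟩
  have hL0 : 0 ≤ L := by rw [hL]; exact Real.log_nonneg (by linarith)
  have hsum : ∑ m ∈ Finset.Icc 1 (Y ^ 2), (m : ℝ)⁻¹ ≤ (1 + L) ^ 2 := by
    have h1 := sum_inv (Y ^ 2)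
    push_cast at h1
    have h2 : Real.log ((Y : ℝ) ^ 2) ≤ L := by
      rw [hL]
      exact Real.log_le_log (by positivity) (by linarith)
    nlinarith
  have h4 : (Y : ℝ) ^ (4 * κ) = (Y : ℝ) ^ (2 * κ) * (Y : ℝ) ^ (2 * κ) := by
    rw [← Real.rpow_add (by linarith)]
    congr 1
    ring
  have hcc : ∀ m ∈ Finset.Icc 1 (Y ^ 2), ‖cc δ m‖ ^ 2 ≤ Kc ^ 2 * (Y : ℝ) ^ (4 * κ) * (m : ℝ) ^ (-(3 / 2) : ℝ) := by
    intro m hm
    have hm1 := (Finset.mem_Icc.1 hm).1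
    have hm0 : (0:ℝ) < m := by exact_mod_cast hm1
    have a1 := coef_pow hm hκ hK ((cc_norm hδ hm1).trans (hag m hm1))
    have e1 : (m : ℝ) ^ (-(3 / 2) : ℝ) = (m : ℝ) ^ (-(3 / 4) : ℝ) * (m : ℝ) ^ (-(3 / 4) : ℝ) := by
      rw [← Real.rpow_add hm0]
      norm_num
    calc ‖cc δ m‖ ^ 2 ≤ (Kc * (Y : ℝ) ^ (2 * κ) * (m : ℝ) ^ (-(3 / 4) : ℝ)) ^ 2 := by gcongr
      _ = _ := by rw [h4, e1]; ring
  rw [← hL]
  constructor
  · calc ∑ m ∈ Finset.Icc 1 (Y ^ 2), ‖cc δ m‖ ^ 2 ≤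
          ∑ m ∈ Finset.Icc 1 (Y ^ 2), Kc ^ 2 * (Y : ℝ) ^ (4 * κ) * (m : ℝ)⁻¹ := by
          refine Finset.sum_le_sum fun m hm => (hcc m hm).trans ?_
          have hm1 : (1:ℝ) ≤ m := by exact_mod_cast (Finset.mem_Icc.1 hm).1
          have : (m : ℝ) ^ (-(3 / 2) : ℝ) ≤ (m : ℝ)⁻¹ := by
            rw [← Real.rpow_neg_one]
            exact Real.rpow_le_rpow_of_exponent_le hm1 (by norm_num)
          gcongr
      _ = Kc ^ 2 * (Y : ℝ) ^ (4 * κ) * ∑ m ∈ Finset.Icc 1 (Y ^ 2), (m : ℝ)⁻¹ := by rw [Finset.mul_sum]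
      _ ≤ Kc ^ 2 * (Y : ℝ) ^ (4 * κ) * (1 + L) ^ 2 := by gcongr
      _ = _ := by ring
  · calc ∑ m ∈ Finset.Icc 1 (Y ^ 2), ‖cd δ τ m‖ ^ 2 ≤
          ∑ m ∈ Finset.Icc 1 (Y ^ 2), Kc ^ 2 * (Y : ℝ) ^ (4 * κ) * (16 * |τ|) * (m : ℝ)⁻¹ := by
          refine Finset.sum_le_sum fun m hm => ?_
          have hm1 : (1:ℝ) ≤ m := by exact_mod_cast (Finset.mem_Icc.1 hm).1
          have hm0 : (0:ℝ) < m := by linarith
          have a1 := hcc m hm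
          have a2 := (ex_sub_one (τ * lm m)).2
          have a3 : |τ * lm m| ≤ 8 * |τ| * (m : ℝ) ^ (1 / 2 : ℝ) := by
            rw [abs_mul]
            have b1 : |lm m| ≤ 8 * (m : ℝ) ^ (1 / 2 : ℝ) := by
              unfold lm
              rw [abs_of_nonneg (by positivity), ← Real.sqrt_eq_rpow]
              have hpi := Real.pi_lt_four
              have := Real.sqrt_nonneg (m : ℝ)
              nlinarith
            have := abs_nonneg τ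
            nlinarith
          unfold cd
          rw [norm_mul, mul_pow]
          calc ‖cc δ m‖ ^ 2 * ‖ex (τ * lm m) - 1‖ ^ 2 ≤
                (Kc ^ 2 * (Y : ℝ) ^ (4 * κ) * (m : ℝ) ^ (-(3 / 2) : ℝ)) * (2 * (8 * |τ| * (m : ℝ) ^ (1 / 2 : ℝ))) := by
                refine mul_le_mul a1 (a2.trans (by linarith)) (by positivity) (by positivity)
            _ = Kc ^ 2 * (Y : ℝ) ^ (4 * κ) * (16 * |τ|) * ((m : ℝ) ^ (-(3 / 2) : ℝ) * (m : ℝ) ^ (1 / 2 : ℝ)) := by ring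
            _ = _ := by
                rw [← Real.rpow_add hm0, ← Real.rpow_neg_one]
                congr 2
                norm_num
      _ = Kc ^ 2 * (Y : ℝ) ^ (4 * κ) * (16 * |τ|) * ∑ m ∈ Finset.Icc 1 (Y ^ 2), (m : ℝ)⁻¹ := by rw [Finset.mul_sum]
      _ ≤ Kc ^ 2 * (Y : ℝ) ^ (4 * κ) * (16 * |τ|) * (1 + L) ^ 2 := by gcongr
      _ = _ := by ring

end Pool.Agent.H471.CR
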