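import Pool.Agent.H471.CR.Fac3

set_option autoImplicit false

/-!
The facts on one factor.
-/

namespace Pool.Agent.H471.CR

open Complex MeasureTheory Set
open Pool.Agent.H471.QP
open Pool.Agent.H383 Pool.Agent.H383.Gauss Pool.Agent.H383.Circ Pool.Agent.H383.Gen

lemma etaZ_int {α β γ : ℝ} (S : Finset ℕ) (c : ℕ → ℂ) (d e : ℕ) (x y : ℝ) :
    IntegrableOn (fun θ : ℝ × ℝ => eta α β θ.1 * ‖ZZ S c (uu d e x y θ)‖ ^ 2) (bx α β γ) := by
  apply ContinuousOn.integrableOn_compact (bx_cpt α β γ)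
  apply Continuous.continuousOn
  apply Continuous.mul
  · unfold QP.eta
    fun_prop
  · exact ((ZZ_cont S c).comp (uu_cont d e x y)).norm.pow 2

lemma gV_sq {α β γ : ℝ} {Y : ℕ} {δ : ℝ} {d e : ℕ} {x y : ℝ} {θ : ℝ × ℝ} (hθ : θ ∈ bx α β γ) :
    ‖gV α β Y δ d e x y θ‖ ^ 2 ≤ eta α β θ.1 * ‖ZZ (Finset.Icc 1 (Y ^ 2)) (cc δ) (uu d e x y θ)‖ ^ 2 := by
  unfold gV
  rw [norm_mul, mul_pow, Complex.norm_real, Complex.norm_real, Real.norm_eq_abs, Real.norm_eq_abs, sq_abs,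
    pow_two (rt α β θ), rt_sq hθ, VV_re]
  have h1 := Complex.abs_re_le_norm (ZZ (Finset.Icc 1 (Y ^ 2)) (cc δ) (uu d e x y θ))
  have h2 := (eta_le hθ).1
  gcongr

lemma three_sq {a b c r : ℝ} (ha : |a| ≤ b + c + r) :
    a ^ 2 ≤ 3 * (b ^ 2 + c ^ 2 + r ^ 2) := by
  have h1 : a ^ 2 ≤ (b + c + r) ^ 2 := by
    rw [← sq_abs]
    gcongr
  nlinarith [sq_nonneg (b - c), sq_nonneg (b - r), sq_nonneg (c - r)]

theorem facC (α β γ Y0 : ℝ) (hα : 0 < α) (hαβ : α ≤ β) (hγ : 0 ≤ γ) (hY0 : 0 ≤ Y0) (ε : ℝ) (hε : 0 < ε)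
    (hε1 : ε ≤ 1 / 2) (d e : ℕ) (he : 1 ≤ e) (hed : e < d) :
    ∃ C x0 : ℝ, 0 < C ∧ 1 ≤ x0 ∧
      (∀ x y : ℝ, x0 ≤ x → 0 ≤ y → y ≤ Y0 * x ^ d →
        ∫ θ in bx α β γ, ‖gC α β d e x y θ‖ ^ 2 ≤ C * x ^ ε ∧
        ∫ θ in bx α β γ, ‖gV α β (YY d x) (dl d x) d e x y θ‖ ^ 2 ≤ C * x ^ ε ∧
        ∫ θ in bx α β γ, ‖gC α β d e x y θ - gV α β (YY d x) (dl d x) d e x y θ‖ ^ 2 ≤ C * x⁻¹) ∧
      (∀ x s y1 y2 : ℝ, x0 ≤ x → x < s →
        ‖∫ θ in bx α β γ, gV α β (YY d x) (dl d x) d e x y1 θ *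
          (starRingEnd ℂ) (gV α β (YY d s) (dl d s) d e s y2 θ)‖ ≤ C * (x * s) ^ ε * (s - x)⁻¹) := by
  have hβ : 0 < β := by linarith
  have hd2 : 2 ≤ d := by omega
  have hd2' : (2:ℝ) ≤ d := by exact_mod_cast hd2
  obtain ⟨Cd, hCd, hdiag⟩ := diagZ α β γ hαβ hγ
  obtain ⟨Co, hCo, hoff⟩ := offZ α β γ hαβ hγ
  obtain ⟨Cs, hCs, hsan⟩ := san2
  obtain ⟨Cp, hCp, hperr⟩ := perr α (Y0 + γ + β) hα (by positivity)
  obtain ⟨κ, hκdef⟩ : ∃ κ : ℝ, κ = ε / (8 * ((d : ℝ) + 1)) := ⟨_, rfl⟩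
  have hκ : 0 < κ := by rw [hκdef]; positivity
  have hκε : 8 * κ * ((d : ℝ) + 1) = ε := by rw [hκdef]; field_simp
  obtain ⟨Kc, hKc, hag0⟩ := Pool.Agent.H452R2.Win.ag_Bdw κ hκ
  have hag : ∀ m : ℕ, 1 ≤ m → ag m ≤ Kc * (m : ℝ) ^ (-(3 / 4) + κ) := fun m hm => (le_abs_self _).trans (hag0 m hm)
  obtain ⟨CL0, hCL0, hYL0⟩ := YL hκ
  obtain ⟨CL, hCLdef⟩ : ∃ CL : ℝ, CL = CL0 ^ (d + 1) := ⟨_, rfl⟩
  have hCL : 0 < CL := by rw [hCLdef]; positivity
  obtain ⟨v, hv⟩ : ∃ v : ℝ, v = volume.real (bx α β γ) := ⟨_, rfl⟩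
  have hv0 : 0 ≤ v := by rw [hv]; exact measureReal_nonneg
  obtain ⟨x0, hx0def⟩ : ∃ x0 : ℝ, x0 = max 1 (4 / α) := ⟨_, rfl⟩
  have hx01 : 1 ≤ x0 := by rw [hx0def]; exact le_max_left _ _
  -- constants
  obtain ⟨C1, hC1⟩ : ∃ C1 : ℝ, C1 = 2 * Cd * Kc ^ 2 * CL := ⟨_, rfl⟩
  obtain ⟨C2, hC2⟩ : ∃ C2 : ℝ, C2 = 3 * (40 * Cd * Kc ^ 2 * CL + (β - α) ^ 2 * v * (Cs * Cp) ^ 2) := ⟨_, rfl⟩
  obtain ⟨C3, hC3⟩ : ∃ C3 : ℝ, C3 = Co * (Kc ^ 2 * (4 ^ (2 * κ)) * ((1 + 1 / κ) * 5 ^ κ)) := ⟨_, rfl⟩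
  have hC10 : 0 < C1 := by rw [hC1]; positivity
  have hC20 : 0 ≤ C2 := by rw [hC2]; positivity
  have hC30 : 0 ≤ C3 := by rw [hC3]; positivity
  have hYL : ∀ x : ℝ, 1 ≤ x → (YY d x : ℝ) ^ (4 * κ) * (1 + Real.log (2 * (YY d x : ℝ) ^ 2)) ^ 2 ≤ CL * x ^ ε := by
    intro x hx
    have := hYL0 d x hx
    rwa [hκε, ← hCLdef] at this
  have key : ∀ x y : ℝ, x0 ≤ x → 0 ≤ y → y ≤ Y0 * x ^ d →
      ∫ θ in bx α β γ, ‖gV α β (YY d x) (dl d x) d e x y θ‖ ^ 2 ≤ C1 * x ^ ε ∧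
      ∫ θ in bx α β γ, ‖gC α β d e x y θ - gV α β (YY d x) (dl d x) d e x y θ‖ ^ 2 ≤ C2 * x⁻¹ := by
    intro x y hx hy hyx
    have hx1 : 1 ≤ x := hx01.trans hx
    have hxp : 0 < x := by linarith
    have hxd : 1 ≤ x ^ d := one_le_pow₀ hx1
    have hxd0 : 0 < x ^ d := by positivity
    obtain ⟨Y, hYdef⟩ : ∃ Y : ℕ, Y = YY d x := ⟨_, rfl⟩
    obtain ⟨δ, hδdef⟩ : ∃ δ : ℝ, δ = dl d x := ⟨_, rfl⟩
    have hδ : 0 < δ := by rw [hδdef]; exact dl_pos hx1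
    have hδ1 : δ ≤ 1 / 2 := by rw [hδdef]; exact dl_le hx1
    have hY : 1 ≤ Y := by rw [hYdef]; exact YY_one hx1
    obtain ⟨L, hL⟩ : ∃ L : ℝ, L = (Y : ℝ) ^ (4 * κ) * (1 + Real.log (2 * (Y : ℝ) ^ 2)) ^ 2 := ⟨_, rfl⟩
    have hL0 : 0 ≤ L := by rw [hL]; positivity
    have hLx : L ≤ CL * x ^ ε := by rw [hL, hYdef]; exact hYL x hx1
    rw [← hYdef, ← hδdef]
    have hS := sq_sums hκ hKc.le hag Y hY δ
    rw [← hL] at hS
    constructor
    · -- the polynomial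
      have h1 : ∫ θ in bx α β γ, ‖gV α β Y δ d e x y θ‖ ^ 2 ≤
          ∫ θ in bx α β γ, eta α β θ.1 * ‖ZZ (Finset.Icc 1 (Y ^ 2)) (cc δ) (uu d e x y θ)‖ ^ 2 :=
        setIntegral_mono_on (gV_bm Y δ d e x y).int_sq (etaZ_int _ _ _ _ _ _) (bx_cpt α β γ).measurableSet
          (fun θ hθ => gV_sq hθ)
      refine h1.trans ?_
      refine (hdiag d e x y Kc κ Y (cc δ) hx1 hκ hKc.le hY (fun m hm =>
        (cc_norm hδ (Finset.mem_Icc.1 hm).1).trans (hag m (Finset.mem_Icc.1 hm).1))).trans ?_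
      have h2 : Kc ^ 2 * (Y : ℝ) ^ (4 * κ) * (1 + Real.log (2 * (Y : ℝ) ^ 2)) ^ 2 / x ^ d ≤ Kc ^ 2 * L := by
        rw [hL, mul_assoc]
        apply div_le_self (by positivity) hxd
      have h3 := (hS 0 hδ).1
      calc Cd * (∑ m ∈ Finset.Icc 1 (Y ^ 2), ‖cc δ m‖ ^ 2 +
            Kc ^ 2 * (Y : ℝ) ^ (4 * κ) * (1 + Real.log (2 * (Y : ℝ) ^ 2)) ^ 2 / x ^ d) ≤
            Cd * (Kc ^ 2 * L + Kc ^ 2 * L) := by gcongr
        _ = 2 * Cd * Kc ^ 2 * L := by ring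
        _ ≤ 2 * Cd * Kc ^ 2 * (CL * x ^ ε) := by gcongr
        _ = _ := by rw [hC1]; ring
    · -- the difference
      obtain ⟨Er, hEr⟩ : ∃ Er : ℝ, Er = Cs * (Cp * x ^ (-(1 / 2) : ℝ)) := ⟨_, rfl⟩
      have hEr0 : 0 ≤ Er := by rw [hEr]; positivity
      have hpt : ∀ θ ∈ bx α β γ, ‖gC α β d e x y θ - gV α β Y δ d e x y θ‖ ^ 2 ≤
          3 * (eta α β θ.1 * ‖ZZ (Finset.Icc 1 (Y ^ 2)) (cd δ (2 * δ)) (uu d e x y θ)‖ ^ 2 +
            eta α β θ.1 * ‖ZZ (Finset.Icc 1 (Y ^ 2)) (cd δ (-2 * δ)) (uu d e x y θ)‖ ^ 2 +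
            (β - α) ^ 2 * Er ^ 2) := by
        intro θ hθ
        have u1 := uu_lb (d := d) (e := e) hxp.le hy hθ
        have u2 := uu_ub (e := e) hγ hed hx1 hyx hθ
        have hR4 : 4 ≤ uu d e x y θ := by
          have a1 : 4 / α ≤ x := (le_max_right _ _).trans (by rw [← hx0def]; exact hx)
          have a2 : x ≤ x ^ d := le_self_pow₀ hx1 (by omega)
          rw [div_le_iff₀ hα] at a1
          nlinarith
        have a1 := hsan (uu d e x y θ) δ Y hR4 hδ hδ1 hY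
        have a2 := hperr d x (uu d e x y θ) hd2 hx1 u1 u2
        rw [← hYdef, ← hδdef] at a2
        have a3 : Cs * (√(uu d e x y θ) * δ + (uu d e x y θ)⁻¹ + δ ^ (2 / 5 : ℝ) +
            δ ^ (-(3 / 2) : ℝ) * (Y : ℝ) ^ (-(24 / 25) : ℝ)) ≤ Er := by
          rw [hEr]
          gcongr
        rw [VV_diff, VV_diff] at a1
        have b1 := Complex.abs_re_le_norm (ZZ (Finset.Icc 1 (Y ^ 2)) (cd δ (2 * δ)) (uu d e x y θ))
        have b2 := Complex.abs_re_le_norm (ZZ (Finset.Icc 1 (Y ^ 2)) (cd δ (-2 * δ)) (uu d e x y θ))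
        have a4 := three_sq (a := En (uu d e x y θ) - VV Y δ (uu d e x y θ)) 
          (b := ‖ZZ (Finset.Icc 1 (Y ^ 2)) (cd δ (2 * δ)) (uu d e x y θ)‖)
          (c := ‖ZZ (Finset.Icc 1 (Y ^ 2)) (cd δ (-2 * δ)) (uu d e x y θ)‖) (r := Er) (by linarith)
        have e1 : ‖gC α β d e x y θ - gV α β Y δ d e x y θ‖ ^ 2 =
            eta α β θ.1 * (En (uu d e x y θ) - VV Y δ (uu d e x y θ)) ^ 2 := by
          unfold gC gV
          rw [← mul_sub, ← Complex.ofReal_sub, norm_mul, mul_pow, Complex.norm_real, Complex.norm_real,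
            Real.norm_eq_abs, Real.norm_eq_abs, sq_abs, sq_abs, pow_two (rt α β θ), rt_sq hθ]
        rw [e1]
        obtain ⟨h1, h2⟩ := eta_le hθ
        calc eta α β θ.1 * (En (uu d e x y θ) - VV Y δ (uu d e x y θ)) ^ 2 ≤
              eta α β θ.1 * (3 * (‖ZZ (Finset.Icc 1 (Y ^ 2)) (cd δ (2 * δ)) (uu d e x y θ)‖ ^ 2 +
                ‖ZZ (Finset.Icc 1 (Y ^ 2)) (cd δ (-2 * δ)) (uu d e x y θ)‖ ^ 2 + Er ^ 2)) := by gcongr
          _ = 3 * (eta α β θ.1 * ‖ZZ (Finset.Icc 1 (Y ^ 2)) (cd δ (2 * δ)) (uu d e x y θ)‖ ^ 2 +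
            eta α β θ.1 * ‖ZZ (Finset.Icc 1 (Y ^ 2)) (cd δ (-2 * δ)) (uu d e x y θ)‖ ^ 2 +
            eta α β θ.1 * Er ^ 2) := by ring
          _ ≤ _ := by gcongr
      have i1 := etaZ_int (α := α) (β := β) (γ := γ) (Finset.Icc 1 (Y ^ 2)) (cd δ (2 * δ)) d e x y
      have i2 := etaZ_int (α := α) (β := β) (γ := γ) (Finset.Icc 1 (Y ^ 2)) (cd δ (-2 * δ)) d e x y
      have i3 : IntegrableOn (fun _ : ℝ × ℝ => (β - α) ^ 2 * Er ^ 2) (bx α β γ) :=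
        integrableOn_const (bx_cpt α β γ).measure_lt_top.ne
      have i12 : IntegrableOn (fun θ : ℝ × ℝ => eta α β θ.1 *
          ‖ZZ (Finset.Icc 1 (Y ^ 2)) (cd δ (2 * δ)) (uu d e x y θ)‖ ^ 2 +
          eta α β θ.1 * ‖ZZ (Finset.Icc 1 (Y ^ 2)) (cd δ (-2 * δ)) (uu d e x y θ)‖ ^ 2) (bx α β γ) := i1.add i2
      have i123 : IntegrableOn (fun θ : ℝ × ℝ => eta α β θ.1 *
          ‖ZZ (Finset.Icc 1 (Y ^ 2)) (cd δ (2 * δ)) (uu d e x y θ)‖ ^ 2 +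
          eta α β θ.1 * ‖ZZ (Finset.Icc 1 (Y ^ 2)) (cd δ (-2 * δ)) (uu d e x y θ)‖ ^ 2 +
            (β - α) ^ 2 * Er ^ 2) (bx α β γ) := i12.add i3
      have h1 := setIntegral_mono_on ((gC_bm (e := e) hα hαβ hγ hed hx1 hy hyx).sub (gV_bm Y δ d e x y)).int_sq
        (i123.const_mul 3) (bx_cpt α β γ).measurableSet hpt
      refine h1.trans ?_
      have e2 : ∫ θ in bx α β γ, 3 * (eta α β θ.1 * ‖ZZ (Finset.Icc 1 (Y ^ 2)) (cd δ (2 * δ)) (uu d e x y θ)‖ ^ 2 +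
            eta α β θ.1 * ‖ZZ (Finset.Icc 1 (Y ^ 2)) (cd δ (-2 * δ)) (uu d e x y θ)‖ ^ 2 +
            (β - α) ^ 2 * Er ^ 2) =
          3 * ((∫ θ in bx α β γ, eta α β θ.1 * ‖ZZ (Finset.Icc 1 (Y ^ 2)) (cd δ (2 * δ)) (uu d e x y θ)‖ ^ 2) +
            (∫ θ in bx α β γ, eta α β θ.1 * ‖ZZ (Finset.Icc 1 (Y ^ 2)) (cd δ (-2 * δ)) (uu d e x y θ)‖ ^ 2) +
            v * ((β - α) ^ 2 * Er ^ 2)) := by
        rw [integral_const_mul, integral_add i12 i3, integral_add i1 i2, setIntegral_const, smul_eq_mul, ← hv]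
      rw [e2]
      -- the two mean squares
      have hms : ∀ τ : ℝ, |τ| ≤ 2 * δ → ∫ θ in bx α β γ, eta α β θ.1 *
          ‖ZZ (Finset.Icc 1 (Y ^ 2)) (cd δ τ) (uu d e x y θ)‖ ^ 2 ≤ 20 * Cd * Kc ^ 2 * CL * x⁻¹ := by
        intro τ hτ
        refine (hdiag d e x y (2 * Kc) κ Y (cd δ τ) hx1 hκ (by positivity) hY (fun m hm => ?_)).trans ?_
        · have a1 := (cc_norm hδ (Finset.mem_Icc.1 hm).1).trans (hag m (Finset.mem_Icc.1 hm).1)
          have a2 := (ex_sub_one (τ * lm m)).1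
          unfold cd
          rw [norm_mul]
          calc ‖cc δ m‖ * ‖ex (τ * lm m) - 1‖ ≤ (Kc * (m : ℝ) ^ (-(3 / 4) + κ)) * 2 :=
                mul_le_mul a1 a2 (norm_nonneg _) (by positivity)
            _ = _ := by ring
        · have h3 := (hS τ hδ).2
          have h4 : Kc ^ 2 * L * (16 * |τ|) ≤ 16 * (Kc ^ 2 * CL * x⁻¹) := by
            have a1 : L * δ ≤ CL * x⁻¹ * (1 / 2) := by
              rw [hδdef]
              unfold dl
              have a2 : x ^ ε * x ^ (-(((d : ℝ) + 1) / 2)) ≤ x⁻¹ := by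
                rw [← Real.rpow_add hxp, ← Real.rpow_neg_one]
                exact Real.rpow_le_rpow_of_exponent_le hx1 (by linarith)
              calc L * (1 / 2 * x ^ (-(((d : ℝ) + 1) / 2))) ≤ (CL * x ^ ε) * (1 / 2 * x ^ (-(((d : ℝ) + 1) / 2))) := by
                    gcongr
                _ = CL * (x ^ ε * x ^ (-(((d : ℝ) + 1) / 2))) * (1 / 2) := by ring
                _ ≤ _ := by gcongr
            calc Kc ^ 2 * L * (16 * |τ|) ≤ Kc ^ 2 * L * (16 * (2 * δ)) := by gcongr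
              _ = 32 * Kc ^ 2 * (L * δ) := by ring
              _ ≤ 32 * Kc ^ 2 * (CL * x⁻¹ * (1 / 2)) := by gcongr
              _ = _ := by ring
          have h5 : (2 * Kc) ^ 2 * (Y : ℝ) ^ (4 * κ) * (1 + Real.log (2 * (Y : ℝ) ^ 2)) ^ 2 / x ^ d ≤
              4 * (Kc ^ 2 * CL * x⁻¹) := by
            have a2 : x ^ ε / x ^ d ≤ x⁻¹ := by
              rw [← Real.rpow_natCast x d, ← Real.rpow_sub hxp, ← Real.rpow_neg_one]
              exact Real.rpow_le_rpow_of_exponent_le hx1 (by linarith)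
            calc (2 * Kc) ^ 2 * (Y : ℝ) ^ (4 * κ) * (1 + Real.log (2 * (Y : ℝ) ^ 2)) ^ 2 / x ^ d =
                  4 * Kc ^ 2 * (L / x ^ d) := by rw [hL]; ring
              _ ≤ 4 * Kc ^ 2 * ((CL * x ^ ε) / x ^ d) := by gcongr
              _ = 4 * Kc ^ 2 * (CL * (x ^ ε / x ^ d)) := by ring
              _ ≤ 4 * Kc ^ 2 * (CL * x⁻¹) := by gcongr
              _ = _ := by ring
          calc Cd * (∑ m ∈ Finset.Icc 1 (Y ^ 2), ‖cd δ τ m‖ ^ 2 +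
                (2 * Kc) ^ 2 * (Y : ℝ) ^ (4 * κ) * (1 + Real.log (2 * (Y : ℝ) ^ 2)) ^ 2 / x ^ d) ≤
                Cd * (16 * (Kc ^ 2 * CL * x⁻¹) + 4 * (Kc ^ 2 * CL * x⁻¹)) := by
                have := h3.trans h4
                gcongr
            _ = _ := by ring
      have m1 := hms (2 * δ) (by rw [abs_of_pos (by positivity)])
      have m2 := hms (-2 * δ) (by rw [neg_mul, abs_neg, abs_of_pos (by positivity)])
      have e3 : Er ^ 2 = (Cs * Cp) ^ 2 * x⁻¹ := by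
        rw [hEr]
        have : x⁻¹ = x ^ (-(1 / 2) : ℝ) * x ^ (-(1 / 2) : ℝ) := by
          rw [← Real.rpow_add hxp, ← Real.rpow_neg_one]
          norm_num
        rw [this]
        ring
      rw [e3, hC2]
      have e4 : 3 * (40 * Cd * Kc ^ 2 * CL + (β - α) ^ 2 * v * (Cs * Cp) ^ 2) * x⁻¹ =
          3 * (20 * Cd * Kc ^ 2 * CL * x⁻¹ + 20 * Cd * Kc ^ 2 * CL * x⁻¹ +
            v * ((β - α) ^ 2 * ((Cs * Cp) ^ 2 * x⁻¹))) := by ring
      rw [e4]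
      gcongr
  refine ⟨2 * C1 + 2 * C2 + C3, x0, by positivity, hx01, ?_, ?_⟩
  · intro x y hx hy hyx
    have hx1 : 1 ≤ x := hx01.trans hx
    have hxp : 0 < x := by linarith
    obtain ⟨h1, h2⟩ := key x y hx hy hyx
    have hxε : 1 ≤ x ^ ε := Real.one_le_rpow hx1 hε.le
    have hxi : x⁻¹ ≤ 1 := inv_le_one_of_one_le₀ hx1
    have hxi0 : 0 < x⁻¹ := by positivity
    have hb1 := gC_bm (e := e) hα hαβ hγ hed hx1 hy hyx
    have hb2 := gV_bm (α := α) (β := β) (γ := γ) (YY d x) (dl d x) d e x y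
    refine ⟨?_, ?_, ?_⟩
    · have h3 : ∫ θ in bx α β γ, ‖gC α β d e x y θ‖ ^ 2 ≤ ∫ θ in bx α β γ,
          (2 * ‖gV α β (YY d x) (dl d x) d e x y θ‖ ^ 2 +
          2 * ‖gC α β d e x y θ - gV α β (YY d x) (dl d x) d e x y θ‖ ^ 2) := by
        have i3 : IntegrableOn (fun θ => 2 * ‖gV α β (YY d x) (dl d x) d e x y θ‖ ^ 2 +
          2 * ‖gC α β d e x y θ - gV α β (YY d x) (dl d x) d e x y θ‖ ^ 2) (bx α β γ) :=
          (hb2.int_sq.const_mul 2).add ((hb1.sub hb2).int_sq.const_mul 2)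
        apply setIntegral_mono_on hb1.int_sq i3 (bx_cpt α β γ).measurableSet
        intro θ _
        have a1 := norm_add_le (gV α β (YY d x) (dl d x) d e x y θ)
          (gC α β d e x y θ - gV α β (YY d x) (dl d x) d e x y θ)
        rw [add_sub_cancel] at a1
        have a2 := norm_nonneg (gC α β d e x y θ)
        have a3 : ‖gC α β d e x y θ‖ ^ 2 ≤ (‖gV α β (YY d x) (dl d x) d e x y θ‖ +
          ‖gC α β d e x y θ - gV α β (YY d x) (dl d x) d e x y θ‖) ^ 2 := by gcongr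
        nlinarith [sq_nonneg (‖gV α β (YY d x) (dl d x) d e x y θ‖ -
          ‖gC α β d e x y θ - gV α β (YY d x) (dl d x) d e x y θ‖)]
      rw [integral_add (hb2.int_sq.const_mul 2) ((hb1.sub hb2).int_sq.const_mul 2), integral_const_mul,
        integral_const_mul] at h3
      have h4 : C2 * x⁻¹ ≤ C2 * x ^ ε := by
        have : x⁻¹ ≤ x ^ ε := by linarith
        gcongr
      have h5 : 0 ≤ C3 * x ^ ε := by positivity
      calc _ ≤ _ := h3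
        _ ≤ 2 * (C1 * x ^ ε) + 2 * (C2 * x⁻¹) := by gcongr
        _ ≤ (2 * C1 + 2 * C2 + C3) * x ^ ε := by nlinarith
    · refine h1.trans ?_
      gcongr
      linarith
    · refine h2.trans ?_
      gcongr
      linarith
  · intro x s y1 y2 hx hxs
    have hx1 : 1 ≤ x := hx01.trans hx
    have hxp : 0 < x := by linarith
    have hs1 : 1 ≤ s := by linarith
    have hsp : 0 < s := by linarith
    have hsx : 0 < s - x := by linarith
    have hY1 := YY_one (d := d) hx1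
    have hY2 := YY_one (d := d) hs1
    have hδ1 := dl_pos (d := d) hx1
    have hδ2 := dl_pos (d := d) hs1
    have h1 := hoff d e x s y1 y2 Kc κ (YY d x) (YY d s) (cc (dl d x)) (cc (dl d s)) he hed hx1 hxs hκ hKc.le hY1 hY2
      (fun m hm => (cc_norm hδ1 (Finset.mem_Icc.1 hm).1).trans (hag m (Finset.mem_Icc.1 hm).1))
      (fun m hm => (cc_norm hδ2 (Finset.mem_Icc.1 hm).1).trans (hag m (Finset.mem_Icc.1 hm).1))
    have e1 : ∫ θ in bx α β γ, gV α β (YY d x) (dl d x) d e x y1 θ *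
          (starRingEnd ℂ) (gV α β (YY d s) (dl d s) d e s y2 θ) =
        ∫ θ in bx α β γ, (eta α β θ.1 : ℂ) * (((ZZ (Finset.Icc 1 (YY d x ^ 2)) (cc (dl d x)) (uu d e x y1 θ)).re : ℂ) *
          ((ZZ (Finset.Icc 1 (YY d s ^ 2)) (cc (dl d s)) (uu d e s y2 θ)).re : ℂ)) := by
      apply setIntegral_congr_fun (bx_cpt α β γ).measurableSet
      intro θ hθ
      simp only []
      unfold gV
      rw [map_mul, Complex.conj_ofReal, Complex.conj_ofReal, ← rt_sq hθ, VV_re, VV_re]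
      push_cast
      ring
    rw [e1]
    refine h1.trans ?_
    -- the factors
    have hY1' : (1:ℝ) ≤ YY d x := by exact_mod_cast hY1
    have hY2' : (1:ℝ) ≤ YY d s := by exact_mod_cast hY2
    have g1 : ((YY d x : ℝ) * YY d s) ^ (2 * κ) ≤ 4 ^ (2 * κ) * (x * s) ^ (2 * κ * ((d : ℝ) + 1)) := by
      calc ((YY d x : ℝ) * YY d s) ^ (2 * κ) ≤ (4 * (x * s) ^ (d + 1)) ^ (2 * κ) := by
            apply Real.rpow_le_rpow (by positivity) _ (by positivity)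
            calc (YY d x : ℝ) * YY d s ≤ (2 * x ^ (d + 1)) * (2 * s ^ (d + 1)) := by
                  have := YY_ub (d := d) hx1
                  have := YY_ub (d := d) hs1
                  gcongr
              _ = _ := by rw [mul_pow]; ring
        _ = _ := by
            rw [Real.mul_rpow (by norm_num) (by positivity), ← Real.rpow_natCast (x * s) (d + 1),
              ← Real.rpow_mul (by positivity)]
            congr 2
            push_cast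
            ring
    have g2 : 1 + Real.log (YY d x + s ^ d * YY d s + 1) ≤
        (1 + 1 / κ) * 5 ^ κ * (x * s) ^ (2 * κ * ((d : ℝ) + 1)) := by
      have p0 : 0 ≤ s ^ d * (YY d s : ℝ) := by positivity
      refine (one_log hκ (by linarith)).trans ?_
      have g3 : (YY d x : ℝ) + s ^ d * YY d s + 1 ≤ 5 * (x * s) ^ (2 * (d + 1)) := by
        have q1 := YY_ub (d := d) hx1
        have q2 := YY_ub (d := d) hs1
        have q3 : 1 ≤ (x * s) ^ (2 * (d + 1)) := one_le_pow₀ (by nlinarith)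
        have q4 : x ^ (d + 1) ≤ (x * s) ^ (2 * (d + 1)) := by
          calc x ^ (d + 1) ≤ (x * s) ^ (d + 1) := by gcongr; nlinarith
            _ ≤ _ := pow_le_pow_right₀ (by nlinarith) (by omega)
        have q5 : s ^ d * s ^ (d + 1) ≤ (x * s) ^ (2 * (d + 1)) := by
          calc s ^ d * s ^ (d + 1) = s ^ (2 * d + 1) := by rw [← pow_add]; congr 1; ring
            _ ≤ (x * s) ^ (2 * d + 1) := by gcongr; nlinarith
            _ ≤ _ := pow_le_pow_right₀ (by nlinarith) (by omega)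
        have q6 : s ^ d * (YY d s : ℝ) ≤ 2 * (x * s) ^ (2 * (d + 1)) := by
          calc s ^ d * (YY d s : ℝ) ≤ s ^ d * (2 * s ^ (d + 1)) := by gcongr
            _ = 2 * (s ^ d * s ^ (d + 1)) := by ring
            _ ≤ _ := by gcongr
        linarith
      calc (1 + 1 / κ) * ((YY d x : ℝ) + s ^ d * YY d s + 1) ^ κ ≤ (1 + 1 / κ) * (5 * (x * s) ^ (2 * (d + 1))) ^ κ := by
            gcongr
        _ = _ := by
            rw [Real.mul_rpow (by norm_num) (by positivity), ← Real.rpow_natCast (x * s) (2 * (d + 1)),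
              ← Real.rpow_mul (by positivity), mul_assoc]
            congr 3
            push_cast
            ring
    have hlog : 0 ≤ 1 + Real.log (YY d x + s ^ d * YY d s + 1) := by
      have p0 : 0 ≤ s ^ d * (YY d s : ℝ) := by positivity
      have := Real.log_nonneg (by linarith : (1:ℝ) ≤ YY d x + s ^ d * YY d s + 1)
      linarith
    have hxs1 : 1 ≤ x * s := by nlinarith
    have g4 : (x * s) ^ (2 * κ * ((d : ℝ) + 1)) * (x * s) ^ (2 * κ * ((d : ℝ) + 1)) ≤ (x * s) ^ ε := by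
      rw [← Real.rpow_add (by positivity)]
      apply Real.rpow_le_rpow_of_exponent_le hxs1
      have : 0 < κ * ((d : ℝ) + 1) := by positivity
      linarith
    calc Co * (Kc ^ 2 * ((YY d x : ℝ) * YY d s) ^ (2 * κ) * (1 + Real.log (YY d x + s ^ d * YY d s + 1))) * (s - x)⁻¹ ≤
          Co * (Kc ^ 2 * (4 ^ (2 * κ) * (x * s) ^ (2 * κ * ((d : ℝ) + 1))) *
            ((1 + 1 / κ) * 5 ^ κ * (x * s) ^ (2 * κ * ((d : ℝ) + 1)))) * (s - x)⁻¹ := by gcongr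
      _ = C3 * ((x * s) ^ (2 * κ * ((d : ℝ) + 1)) * (x * s) ^ (2 * κ * ((d : ℝ) + 1))) * (s - x)⁻¹ := by
          rw [hC3]; ring
      _ ≤ (2 * C1 + 2 * C2 + C3) * (x * s) ^ ε * (s - x)⁻¹ := by
          gcongr
          linarith

end Pool.Agent.H471.CR
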