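import Mathlib
import Pool.Graph.R_seed8.H452R2.Win.V7

set_option autoImplicit false

/-!
The sandwich for the circle problem, with a sharper error term (after `Pool.Agent.H452R2.Win.En_SandW` of the
library).
-/

namespace Pool.Agent.H471.CR

open MeasureTheory Filter Topology
open Pool.Agent.H383 Pool.Agent.H383.Gauss Pool.Agent.H383.Circ Pool.Agent.H383.Gen

theorem san : ∃ C0 : ℝ, 0 < C0 ∧ ∀ R R' δ : ℝ, 4 ≤ R → 0 < δ → δ ≤ 1/2 → |R' - R| ≤ δ →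
    En R' ≤ GW.WS ag (3 * Real.pi/4) wg (R + 2 * δ) δ + C0 * (√R * δ + R⁻¹ + δ ^ (2/5:ℝ)) ∧
    GW.WS ag (3 * Real.pi/4) wg (R + -2 * δ) δ - C0 * (√R * δ + R⁻¹ + δ ^ (2/5:ℝ)) ≤ En R' := by
  obtain ⟨C1, hC1, hW⟩ := W_sub_WS
  obtain ⟨C2, hC2, hT⟩ := WS_triv (φ := 3 * Real.pi/4) ag_Bd ag_zero wg_Wt
  have hpi := Real.pi_pos
  have hpi4 := Real.pi_lt_four
  refine ⟨96 * 4 + 3 * C1 + 8 * (C2 + C1), by positivity, ?_⟩
  intro R R' δ hR hδ hδ1 hRR
  constructor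
  · obtain ⟨hRR1, hRR2⟩ := abs_le.mp hRR
    have hR0 : 0 < R := by linarith
    set ρ := R + 2 * δ with hρ
    have hρ0 : 0 < ρ := by linarith
    have hR'0 : 0 < R' := by linarith
    have hR'2 : R/2 ≤ R' := by linarith
    have hρR' : R' ≤ ρ := by linarith
    have hsR' : 0 < √R' := Real.sqrt_pos.mpr hR'0
    have h1 : F R' ≤ Real.pi * ρ^2 + √ρ * W ρ δ := by
      have h2 := F_mono hR'0.le (show R' ≤ R + δ by linarith)
      have h3 := F_le_W (R := R + δ) (by linarith) hδ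
      have e : R + δ + δ = ρ := by rw [hρ]; ring
      rw [e] at h3
      linarith
    have hWa := hW ρ δ hρ0 hδ
    have hWSa := hT ρ δ hδ
    set WS' := GW.WS ag (3 * Real.pi/4) wg ρ δ with hWS'
    have hWub : W ρ δ ≤ WS' + C1 / ρ := by linarith [(abs_le.mp hWa).2]
    have hWabs : |W ρ δ| ≤ (C2 + C1) * δ ^ (-(3/5):ℝ) := by
      have h4 : |W ρ δ| ≤ |WS'| + |W ρ δ - WS'| := by
        have := abs_add_le WS' (W ρ δ - WS')
        simpa using this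
      have h5 : C1 / ρ ≤ C1 * 1 := by
        rw [mul_one]; apply div_le_self hC1.le; linarith
      have h6 : 1 ≤ δ ^ (-(3/5):ℝ) := Real.one_le_rpow_of_pos_of_le_one_of_nonpos hδ (by linarith) (by norm_num)
      nlinarith
    -- main term
    have hs1 : √R' * √R' = R' := Real.mul_self_sqrt hR'0.le
    have hsρ : 0 < √ρ := Real.sqrt_pos.mpr hρ0
    have hs2 : √ρ * √ρ = ρ := Real.mul_self_sqrt hρ0.le
    have hsle : √R' ≤ √ρ := Real.sqrt_le_sqrt hρR'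
    have hsR : √R ≤ 2 * √R' := by
      rw [Real.sqrt_le_left (by positivity), mul_pow, Real.sq_sqrt hR'0.le]
      linarith
    have hsR0 : 0 < √R := Real.sqrt_pos.mpr hR0
    have hm : Real.pi * ρ^2 - Real.pi * R'^2 ≤ (96 * 4 * √R * δ) * √R' := by
      have e : Real.pi * ρ^2 - Real.pi * R'^2 = Real.pi * ((ρ - R') * (ρ + R')) := by ring
      rw [e]
      have h4 : (ρ - R') * (ρ + R') ≤ (3 * δ) * (4 * R) := mul_le_mul (by linarith) (by linarith) (by linarith) (by linarith)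
      have h5 : R ≤ √R * (2 * √R') := by
        calc R = √R * √R := (Real.mul_self_sqrt hR0.le).symm
          _ ≤ _ := mul_le_mul_of_nonneg_left hsR hsR0.le
      calc Real.pi * ((ρ - R') * (ρ + R')) ≤ 4 * ((3 * δ) * (4 * R)) := by
            apply mul_le_mul hpi4.le h4 _ (by norm_num)
            apply mul_nonneg <;> linarith
        _ = 48 * δ * R := by ring
        _ ≤ 48 * δ * (√R * (2 * √R')) := by gcongr
        _ ≤ _ := by
            have : 0 ≤ √R * δ * √R' := by positivity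
            nlinarith
    have hs3 : (√ρ - √R') ≤ (3 * δ) * √R' := by
      have h4 : (√ρ - √R') * (√ρ + √R') = ρ - R' := by
        have : (√ρ - √R') * (√ρ + √R') = √ρ * √ρ - √R' * √R' := by ring
        rw [this, hs1, hs2]
      have h5 : (√ρ - √R') * √R' ≤ 3 * δ := by
        have h6 : (√ρ - √R') * √R' ≤ (√ρ - √R') * (√ρ + √R') :=
          mul_le_mul_of_nonneg_left (by linarith) (by linarith)
        linarith
      have h6 : 1 ≤ R' := by linarith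
      have h7 : (√ρ - √R') * √R' * √R' ≤ 3 * δ * √R' := mul_le_mul_of_nonneg_right h5 hsR'.le
      have h8 : (√ρ - √R') * √R' * √R' = (√ρ - √R') * R' := by rw [mul_assoc, hs1]
      rw [h8] at h7
      have h9 : (√ρ - √R') * 1 ≤ (√ρ - √R') * R' := mul_le_mul_of_nonneg_left h6 (by linarith)
      linarith
    have hW1 : √ρ * W ρ δ ≤ √R' * W ρ δ + (3 * δ) * √R' * ((C2 + C1) * δ ^ (-(3/5):ℝ)) := by
      have e : √ρ * W ρ δ = √R' * W ρ δ + (√ρ - √R') * W ρ δ := by ring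
      rw [e]
      have h4 : (√ρ - √R') * W ρ δ ≤ (√ρ - √R') * |W ρ δ| :=
        mul_le_mul_of_nonneg_left (le_abs_self _) (by linarith)
      have h5 : (√ρ - √R') * |W ρ δ| ≤ ((3 * δ) * √R') * ((C2 + C1) * δ ^ (-(3/5):ℝ)) :=
        mul_le_mul hs3 hWabs (abs_nonneg _) (by positivity)
      linarith
    have hEn : En R' ≤ 96 * 4 * √R * δ + W ρ δ + (3 * δ) * ((C2 + C1) * δ ^ (-(3/5):ℝ)) := by
      unfold En
      rw [div_le_iff₀ hsR']
      have e : (96 * 4 * √R * δ + W ρ δ + (3 * δ) * ((C2 + C1) * δ ^ (-(3/5):ℝ))) * √R' =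
          (96 * 4 * √R * δ) * √R' + √R' * W ρ δ + (3 * δ) * √R' * ((C2 + C1) * δ ^ (-(3/5):ℝ)) := by ring
      rw [e]; linarith
    have hd : δ * δ ^ (-(3/5):ℝ) = δ ^ (2/5:ℝ) := by
      nth_rewrite 1 [← Real.rpow_one δ]
      rw [← Real.rpow_add hδ]; norm_num
    have hC1ρ : C1 / ρ ≤ C1 * R⁻¹ := by
      rw [div_eq_mul_inv]
      exact mul_le_mul_of_nonneg_left (inv_anti₀ hR0 (by linarith)) hC1.le
    have e1 : (3 * δ) * ((C2 + C1) * δ ^ (-(3/5):ℝ)) = 3 * (C2 + C1) * δ ^ (2/5:ℝ) := by rw [← hd]; ring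
    rw [e1] at hEn
    have q0 : 0 < R⁻¹ := by positivity
    have q3 : 0 ≤ δ ^ (2/5:ℝ) := by positivity
    have q4 : 0 ≤ (3 * C1 + 8 * (C2 + C1)) * (√R * δ) := by positivity
    have q5 : 0 ≤ (96 * 4 + 2 * C1 + 8 * (C2 + C1)) * R⁻¹ := by positivity
    have q6 : 0 ≤ (96 * 4 + 3 * C1 + 5 * (C2 + C1)) * δ ^ (2/5:ℝ) := by positivity
    linarith
  · obtain ⟨hRR1, hRR2⟩ := abs_le.mp hRR
    have hR0 : 0 < R := by linarith
    have eρ : R + -2 * δ = R - 2 * δ := by ring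
    rw [eρ]
    set ρ := R - 2 * δ with hρ
    have hρ0 : 0 < ρ := by linarith
    have hρ1 : R/2 ≤ ρ := by linarith
    have hR'0 : 0 < R' := by linarith
    have hR'2 : R/2 ≤ R' := by linarith
    have hρR' : ρ ≤ R' := by linarith
    have hsR' : 0 < √R' := Real.sqrt_pos.mpr hR'0
    have h1 : Real.pi * ρ^2 + √ρ * W ρ δ ≤ F R' := by
      have h2 := F_mono (show 0 ≤ R - δ by linarith) (show R - δ ≤ R' by linarith)
      have h3 := le_F_W (R := R - δ) hδ (by linarith)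
      have e : R - δ - δ = ρ := by rw [hρ]; ring
      rw [e] at h3
      linarith
    have hWa := hW ρ δ hρ0 hδ
    have hWSa := hT ρ δ hδ
    set WS' := GW.WS ag (3 * Real.pi/4) wg ρ δ with hWS'
    have hWlb : WS' - C1 / ρ ≤ W ρ δ := by linarith [(abs_le.mp hWa).1]
    have hWabs : |W ρ δ| ≤ (C2 + C1) * δ ^ (-(3/5):ℝ) := by
      have h4 : |W ρ δ| ≤ |WS'| + |W ρ δ - WS'| := by
        have := abs_add_le WS' (W ρ δ - WS')
        simpa using this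
      have h5 : C1 / ρ ≤ C1 * 1 := by
        rw [mul_one]; apply div_le_self hC1.le; linarith
      have h6 : 1 ≤ δ ^ (-(3/5):ℝ) := Real.one_le_rpow_of_pos_of_le_one_of_nonpos hδ (by linarith) (by norm_num)
      nlinarith
    have hs1 : √R' * √R' = R' := Real.mul_self_sqrt hR'0.le
    have hsρ : 0 < √ρ := Real.sqrt_pos.mpr hρ0
    have hs2 : √ρ * √ρ = ρ := Real.mul_self_sqrt hρ0.le
    have hsle : √ρ ≤ √R' := Real.sqrt_le_sqrt hρR'
    have hsR : √R ≤ 2 * √R' := by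
      rw [Real.sqrt_le_left (by positivity), mul_pow, Real.sq_sqrt hR'0.le]
      linarith
    have hsR0 : 0 < √R := Real.sqrt_pos.mpr hR0
    have hm : Real.pi * R'^2 - Real.pi * ρ^2 ≤ (96 * 4 * √R * δ) * √R' := by
      have e : Real.pi * R'^2 - Real.pi * ρ^2 = Real.pi * ((R' - ρ) * (ρ + R')) := by ring
      rw [e]
      have h4 : (R' - ρ) * (ρ + R') ≤ (3 * δ) * (4 * R) := mul_le_mul (by linarith) (by linarith) (by linarith) (by linarith)
      have h5 : R ≤ √R * (2 * √R') := by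
        calc R = √R * √R := (Real.mul_self_sqrt hR0.le).symm
          _ ≤ _ := mul_le_mul_of_nonneg_left hsR hsR0.le
      calc Real.pi * ((R' - ρ) * (ρ + R')) ≤ 4 * ((3 * δ) * (4 * R)) := by
            apply mul_le_mul hpi4.le h4 _ (by norm_num)
            apply mul_nonneg <;> linarith
        _ = 48 * δ * R := by ring
        _ ≤ 48 * δ * (√R * (2 * √R')) := by gcongr
        _ ≤ _ := by
            have : 0 ≤ √R * δ * √R' := by positivity
            nlinarith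
    have hs3 : (√R' - √ρ) ≤ (3 * δ) * √R' := by
      have h4 : (√R' - √ρ) * (√ρ + √R') = R' - ρ := by
        have : (√R' - √ρ) * (√ρ + √R') = √R' * √R' - √ρ * √ρ := by ring
        rw [this, hs1, hs2]
      have h5 : (√R' - √ρ) * √R' ≤ 3 * δ := by
        have h6 : (√R' - √ρ) * √R' ≤ (√R' - √ρ) * (√ρ + √R') :=
          mul_le_mul_of_nonneg_left (by linarith) (by linarith)
        linarith
      have h6 : 1 ≤ R' := by linarith
      have h7 : (√R' - √ρ) * √R' * √R' ≤ 3 * δ * √R' := mul_le_mul_of_nonneg_right h5 hsR'.le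
      have h8 : (√R' - √ρ) * √R' * √R' = (√R' - √ρ) * R' := by rw [mul_assoc, hs1]
      rw [h8] at h7
      have h9 : (√R' - √ρ) * 1 ≤ (√R' - √ρ) * R' := mul_le_mul_of_nonneg_left h6 (by linarith)
      linarith
    have hW1 : √R' * W ρ δ - (3 * δ) * √R' * ((C2 + C1) * δ ^ (-(3/5):ℝ)) ≤ √ρ * W ρ δ := by
      have e : √ρ * W ρ δ = √R' * W ρ δ - (√R' - √ρ) * W ρ δ := by ring
      rw [e]
      have h4 : (√R' - √ρ) * W ρ δ ≤ (√R' - √ρ) * |W ρ δ| :=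
        mul_le_mul_of_nonneg_left (le_abs_self _) (by linarith)
      have h5 : (√R' - √ρ) * |W ρ δ| ≤ ((3 * δ) * √R') * ((C2 + C1) * δ ^ (-(3/5):ℝ)) :=
        mul_le_mul hs3 hWabs (abs_nonneg _) (by positivity)
      linarith
    have hEn : W ρ δ - 96 * 4 * √R * δ - (3 * δ) * ((C2 + C1) * δ ^ (-(3/5):ℝ)) ≤ En R' := by
      unfold En
      rw [le_div_iff₀ hsR']
      have e : (W ρ δ - 96 * 4 * √R * δ - (3 * δ) * ((C2 + C1) * δ ^ (-(3/5):ℝ))) * √R' =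
          √R' * W ρ δ - (96 * 4 * √R * δ) * √R' - (3 * δ) * √R' * ((C2 + C1) * δ ^ (-(3/5):ℝ)) := by ring
      rw [e]; linarith
    have hd : δ * δ ^ (-(3/5):ℝ) = δ ^ (2/5:ℝ) := by
      nth_rewrite 1 [← Real.rpow_one δ]
      rw [← Real.rpow_add hδ]; norm_num
    have hC1ρ : C1 / ρ ≤ 2 * C1 * R⁻¹ := by
      rw [div_eq_mul_inv, mul_comm 2 C1, mul_assoc]
      apply mul_le_mul_of_nonneg_left _ hC1.le
      calc ρ⁻¹ ≤ (R/2)⁻¹ := inv_anti₀ (by positivity) hρ1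
          _ = 2 * R⁻¹ := by field_simp
    have e1 : (3 * δ) * ((C2 + C1) * δ ^ (-(3/5):ℝ)) = 3 * (C2 + C1) * δ ^ (2/5:ℝ) := by rw [← hd]; ring
    rw [e1] at hEn
    have q0 : 0 < R⁻¹ := by positivity
    have q3 : 0 ≤ δ ^ (2/5:ℝ) := by positivity
    have q4 : 0 ≤ (3 * C1 + 8 * (C2 + C1)) * (√R * δ) := by positivity
    have q5 : 0 ≤ (96 * 4 + C1 + 8 * (C2 + C1)) * R⁻¹ := by positivity
    have q6 : 0 ≤ (96 * 4 + 3 * C1 + 5 * (C2 + C1)) * δ ^ (2/5:ℝ) := by positivity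
    linarith

/-- the trigonometric polynomial -/
noncomputable def VV (Y : ℕ) (δ R : ℝ) : ℝ := ∑ m ∈ Finset.Icc 1 (Y ^ 2), GW.wt ag (3 * Real.pi/4) wg R δ m

/-- the error term against the polynomial -/
theorem san2 : ∃ C0 : ℝ, 0 < C0 ∧ ∀ (R δ : ℝ) (Y : ℕ), 4 ≤ R → 0 < δ → δ ≤ 1/2 → 1 ≤ Y →
    |En R - VV Y δ R| ≤ |VV Y δ (R + 2 * δ) - VV Y δ R| + |VV Y δ (R + -2 * δ) - VV Y δ R| +
      C0 * (√R * δ + R⁻¹ + δ ^ (2/5:ℝ) + δ ^ (-(3/2):ℝ) * (Y:ℝ) ^ (-(24/25):ℝ)) := by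
  obtain ⟨C1, hC1, h1⟩ := san
  obtain ⟨C2, hC2, h2⟩ := GW.WS_tail (φ := 3 * Real.pi/4) ag_Bd ag_zero wg_Wt
  refine ⟨C1 + C2, by positivity, fun R δ Y hR hδ hδ1 hY => ?_⟩
  obtain ⟨a1, a2⟩ := h1 R R δ hR hδ hδ1 (by rw [sub_self, abs_zero]; exact hδ.le)
  have b1 := abs_le.1 (h2 δ hδ (R + 2 * δ) Y hY)
  have b2 := abs_le.1 (h2 δ hδ (R + -2 * δ) Y hY)
  have c1 := le_abs_self (VV Y δ (R + 2 * δ) - VV Y δ R)
  have c2 := neg_abs_le (VV Y δ (R + -2 * δ) - VV Y δ R)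
  have c3 := abs_nonneg (VV Y δ (R + 2 * δ) - VV Y δ R)
  have c4 := abs_nonneg (VV Y δ (R + -2 * δ) - VV Y δ R)
  have e1 : ∑ m ∈ Finset.Icc 1 (Y ^ 2), GW.wt ag (3 * Real.pi/4) wg (R + 2 * δ) δ m = VV Y δ (R + 2 * δ) := rfl
  have e2 : ∑ m ∈ Finset.Icc 1 (Y ^ 2), GW.wt ag (3 * Real.pi/4) wg (R + -2 * δ) δ m = VV Y δ (R + -2 * δ) := rfl
  rw [e1] at b1
  rw [e2] at b2
  have hR0 : 0 < R := by linarith
  obtain ⟨P, hP⟩ : ∃ P : ℝ, P = √R * δ + R⁻¹ + δ ^ (2/5:ℝ) := ⟨_, rfl⟩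
  obtain ⟨Q, hQ⟩ : ∃ Q : ℝ, Q = δ ^ (-(3/2):ℝ) * (Y:ℝ) ^ (-(24/25):ℝ) := ⟨_, rfl⟩
  have hP0 : 0 ≤ P := by rw [hP]; positivity
  have hQ0 : 0 ≤ Q := by rw [hQ]; positivity
  rw [← hP] at a1 a2
  rw [mul_assoc, ← hQ] at b1 b2
  rw [← hP, ← hQ]
  have d1 : 0 ≤ C1 * Q := by positivity
  have d2 : 0 ≤ C2 * P := by positivity
  rw [abs_le]
  constructor
  · nlinarith [b2.1, b2.2]
  · nlinarith [b1.1, b1.2]

end Pool.Agent.H471.CR
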